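import Pool.Agent.V8H38.HF.Sent

/-!
# The meaning of the clauses
-/

namespace Pool.Agent.V8H38.HF

open Function Pool.Agent.NPC Pool.Agent.H593R3.FBC

variable {R : Rels ℕ} {c : Set ℕ}

theorem ix0 : ix 0 = 0 := rfl
theorem ix1 : ix 1 = 1 := rfl
theorem ix2 : ix 2 = 2 := rfl
theorem ix3 : ix 3 = 3 := rfl
theorem ix4 : ix 4 = 4 := rfl

theorem litH_ps {i : ℕ} {l : List ℕ} {v : Fin 5 → ℕ} :
    LitH R (ps i l) v ↔ R i (l.map (fun a => v (ix a))) := by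
  simp [LitH, AtH, ps]

theorem litH_ng {i : ℕ} {l : List ℕ} {v : Fin 5 → ℕ} :
    LitH R (ng i l) v ↔ ¬ R i (l.map (fun a => v (ix a))) := by
  simp [LitH, AtH, ng]

theorem litH_eqv {a b : ℕ} {v : Fin 5 → ℕ} : LitH R (eqv a b) v ↔ v (ix a) = v (ix b) := by
  simp [LitH, AtH, eqv]

theorem ClH.use {cl : Cl} (h : ClH R c cl) {x₁ x₂ x₃ x₄ : ℕ} (h1 : x₁ ∈ c) (h2 : x₂ ∈ c)
    (h3 : x₃ ∈ c) (h4 : x₄ ∈ c) : ∃ y ∈ c, ∃ t ∈ cl, LitH R t ![y, x₁, x₂, x₃, x₄] :=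
  h x₄ h4 x₃ h3 x₂ h2 x₁ h1

/-- The meaning of the fixed clauses. -/
structure Ax (R : Rels ℕ) (c : Set ℕ) : Prop where
  a1 : ∀ x ∈ c, ¬ R 3 [x, x]
  a2 : ∀ x ∈ c, ∀ y ∈ c, ∀ z ∈ c, R 3 [x, y] → R 3 [y, z] → R 3 [x, z]
  a3 : ∀ x ∈ c, ∀ y ∈ c, R 7 [x] → R 7 [y] → x = y ∨ R 3 [x, y] ∨ R 3 [y, x]
  a4 : ∀ x ∈ c, ∀ y ∈ c, R 2 [x, y] → R 3 [x, y]
  a5 : ∀ x ∈ c, ∀ y ∈ c, ∀ z ∈ c, R 2 [x, y] → R 3 [x, z] → ¬ R 3 [z, y]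
  a6 : ∀ x ∈ c, ∀ y ∈ c, R 3 [x, y] → R 7 [x]
  a7 : ∀ x ∈ c, ∀ y ∈ c, R 3 [x, y] → R 7 [y]
  a8 : ∀ x ∈ c, ∀ y ∈ c, R 4 [x, y] → R 7 [x]
  a9 : ∀ x ∈ c, ∀ y ∈ c, R 4 [x, y] → ¬ R 7 [y]
  a10 : ∀ x ∈ c, ∀ y ∈ c, ∀ z ∈ c, R 4 [x, y] → R 4 [x, z] → y = z
  a11 : ∀ x ∈ c, ∀ y ∈ c, R 0 [x] → ¬ R 3 [y, x]
  a12 : ∀ x ∈ c, ∀ y ∈ c, R 1 [x] → ¬ R 3 [x, y]
  e1 : ∀ x ∈ c, R 7 [x] → R 1 [x] ∨ ∃ y ∈ c, R 2 [x, y]
  e2 : ∀ x ∈ c, R 7 [x] → R 0 [x] ∨ ∃ y ∈ c, R 2 [y, x]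
  e3 : ∀ x ∈ c, R 7 [x] ∨ ∃ y ∈ c, R 4 [y, x]
  e5 : ∀ x ∈ c, ∀ y ∈ c, ∀ z ∈ c, R 5 [x, y, z] → ∃ t ∈ c, R 4 [x, t] ∨ R 4 [y, t] ∨ R 4 [z, t]
  n1 : ∀ x ∈ c, ∀ y ∈ c, ∀ t ∈ c, ∀ t' ∈ c, R 6 [x, y] → R 4 [x, t] → ¬ R 4 [y, t']

theorem ax_of {R : Rels ℕ} {c : Set ℕ} (h : Psi R c cls0) : Ax R c := by
  simp only [Psi, cls0, List.mem_cons, List.not_mem_nil, or_false, forall_eq_or_imp,
    forall_eq] at h
  obtain ⟨a1, a2, a3, a4, a5, a6, a7, a8, a9, a10, a11, a12, e1, e2, e3, e5, n1⟩ := h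
  constructor
  · intro x hx
    have := a1.use hx hx hx hx
    simp [litH_ps, litH_ng, litH_eqv, ix0, ix1, ix2, ix3, ix4] at this
    tauto
  · intro x hx y hy z hz h1 h2
    have := a2.use hx hy hz hx
    simp [litH_ps, litH_ng, litH_eqv, ix0, ix1, ix2, ix3, ix4] at this
    tauto
  · intro x hx y hy h1 h2
    have := a3.use hx hy hx hx
    simp [litH_ps, litH_ng, litH_eqv, ix0, ix1, ix2, ix3, ix4] at this
    tauto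
  · intro x hx y hy h1
    have := a4.use hx hy hx hx
    simp [litH_ps, litH_ng, litH_eqv, ix0, ix1, ix2, ix3, ix4] at this
    tauto
  · intro x hx y hy z hz h1 h2
    have := a5.use hx hy hz hx
    simp [litH_ps, litH_ng, litH_eqv, ix0, ix1, ix2, ix3, ix4] at this
    tauto
  · intro x hx y hy h1
    have := a6.use hx hy hx hx
    simp [litH_ps, litH_ng, litH_eqv, ix0, ix1, ix2, ix3, ix4] at this
    tauto
  · intro x hx y hy h1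
    have := a7.use hx hy hx hx
    simp [litH_ps, litH_ng, litH_eqv, ix0, ix1, ix2, ix3, ix4] at this
    tauto
  · intro x hx y hy h1
    have := a8.use hx hy hx hx
    simp [litH_ps, litH_ng, litH_eqv, ix0, ix1, ix2, ix3, ix4] at this
    tauto
  · intro x hx y hy h1
    have := a9.use hx hy hx hx
    simp [litH_ps, litH_ng, litH_eqv, ix0, ix1, ix2, ix3, ix4] at this
    tauto
  · intro x hx y hy z hz h1 h2
    have := a10.use hx hy hz hx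
    simp [litH_ps, litH_ng, litH_eqv, ix0, ix1, ix2, ix3, ix4] at this
    tauto
  · intro x hx y hy h1
    have := a11.use hx hy hx hx
    simp [litH_ps, litH_ng, litH_eqv, ix0, ix1, ix2, ix3, ix4] at this
    tauto
  · intro x hx y hy h1
    have := a12.use hx hy hx hx
    simp [litH_ps, litH_ng, litH_eqv, ix0, ix1, ix2, ix3, ix4] at this
    tauto
  · intro x hx h1
    obtain ⟨y, hy, this⟩ := e1.use hx hx hx hx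
    simp [litH_ps, litH_ng, litH_eqv, ix0, ix1, ix2, ix3, ix4] at this
    rcases this with h | h | h
    · exact absurd h1 h
    · exact Or.inl h
    · exact Or.inr ⟨y, hy, h⟩
  · intro x hx h1
    obtain ⟨y, hy, this⟩ := e2.use hx hx hx hx
    simp [litH_ps, litH_ng, litH_eqv, ix0, ix1, ix2, ix3, ix4] at this
    rcases this with h | h | h
    · exact absurd h1 h
    · exact Or.inl h
    · exact Or.inr ⟨y, hy, h⟩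
  · intro x hx
    obtain ⟨y, hy, this⟩ := e3.use hx hx hx hx
    simp [litH_ps, litH_ng, litH_eqv, ix0, ix1, ix2, ix3, ix4] at this
    rcases this with h | h
    · exact Or.inl h
    · exact Or.inr ⟨y, hy, h⟩
  · intro x hx y hy z hz h1
    obtain ⟨t, ht, this⟩ := e5.use hx hy hz hx
    simp [litH_ps, litH_ng, litH_eqv, ix0, ix1, ix2, ix3, ix4] at this
    rcases this with h | h
    · exact absurd h1 h
    · exact ⟨t, ht, h⟩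
  · intro x hx y hy z hz w hw h1 h2
    have := n1.use hx hy hz hw
    simp [litH_ps, litH_ng, litH_eqv, ix0, ix1, ix2, ix3, ix4] at this
    tauto

theorem psi0_of {R : Rels ℕ} {c : Set ℕ} (h : Ax R c) : Psi R c cls0 := by
  simp only [Psi, cls0, List.mem_cons, List.not_mem_nil, or_false, forall_eq_or_imp,
    forall_eq]
  refine ⟨?_, ?_, ?_, ?_, ?_, ?_, ?_, ?_, ?_, ?_, ?_, ?_, ?_, ?_, ?_, ?_, ?_⟩
  · intro x₄ h4 x₃ h3 x₂ h2 x₁ h1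
    refine ⟨x₁, h1, ?_⟩
    simp [litH_ps, litH_ng, litH_eqv, ix0, ix1, ix2, ix3, ix4]
    exact h.a1 x₁ h1
  · intro x₄ h4 x₃ h3 x₂ h2 x₁ h1
    refine ⟨x₁, h1, ?_⟩
    simp [litH_ps, litH_ng, litH_eqv, ix0, ix1, ix2, ix3, ix4]
    have := h.a2 x₁ h1 x₂ h2 x₃ h3
    tauto
  · intro x₄ h4 x₃ h3 x₂ h2 x₁ h1
    refine ⟨x₁, h1, ?_⟩
    simp [litH_ps, litH_ng, litH_eqv, ix0, ix1, ix2, ix3, ix4]
    have := h.a3 x₁ h1 x₂ h2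
    tauto
  · intro x₄ h4 x₃ h3 x₂ h2 x₁ h1
    refine ⟨x₁, h1, ?_⟩
    simp [litH_ps, litH_ng, litH_eqv, ix0, ix1, ix2, ix3, ix4]
    have := h.a4 x₁ h1 x₂ h2
    tauto
  · intro x₄ h4 x₃ h3 x₂ h2 x₁ h1
    refine ⟨x₁, h1, ?_⟩
    simp [litH_ps, litH_ng, litH_eqv, ix0, ix1, ix2, ix3, ix4]
    have := h.a5 x₁ h1 x₂ h2 x₃ h3
    tauto
  · intro x₄ h4 x₃ h3 x₂ h2 x₁ h1
    refine ⟨x₁, h1, ?_⟩
    simp [litH_ps, litH_ng, litH_eqv, ix0, ix1, ix2, ix3, ix4]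
    have := h.a6 x₁ h1 x₂ h2
    tauto
  · intro x₄ h4 x₃ h3 x₂ h2 x₁ h1
    refine ⟨x₁, h1, ?_⟩
    simp [litH_ps, litH_ng, litH_eqv, ix0, ix1, ix2, ix3, ix4]
    have := h.a7 x₁ h1 x₂ h2
    tauto
  · intro x₄ h4 x₃ h3 x₂ h2 x₁ h1
    refine ⟨x₁, h1, ?_⟩
    simp [litH_ps, litH_ng, litH_eqv, ix0, ix1, ix2, ix3, ix4]
    have := h.a8 x₁ h1 x₂ h2
    tauto
  · intro x₄ h4 x₃ h3 x₂ h2 x₁ h1
    refine ⟨x₁, h1, ?_⟩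
    simp [litH_ps, litH_ng, litH_eqv, ix0, ix1, ix2, ix3, ix4]
    have := h.a9 x₁ h1 x₂ h2
    tauto
  · intro x₄ h4 x₃ h3 x₂ h2 x₁ h1
    refine ⟨x₁, h1, ?_⟩
    simp [litH_ps, litH_ng, litH_eqv, ix0, ix1, ix2, ix3, ix4]
    have := h.a10 x₁ h1 x₂ h2 x₃ h3
    tauto
  · intro x₄ h4 x₃ h3 x₂ h2 x₁ h1
    refine ⟨x₁, h1, ?_⟩
    simp [litH_ps, litH_ng, litH_eqv, ix0, ix1, ix2, ix3, ix4]
    have := h.a11 x₁ h1 x₂ h2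
    tauto
  · intro x₄ h4 x₃ h3 x₂ h2 x₁ h1
    refine ⟨x₁, h1, ?_⟩
    simp [litH_ps, litH_ng, litH_eqv, ix0, ix1, ix2, ix3, ix4]
    have := h.a12 x₁ h1 x₂ h2
    tauto
  · intro x₄ h4 x₃ h3 x₂ h2 x₁ h1
    by_cases h7 : R 7 [x₁]
    · rcases h.e1 x₁ h1 h7 with h' | ⟨y, hy, h'⟩
      · exact ⟨x₁, h1, _, List.mem_cons_of_mem _ (List.mem_cons_self ..), litH_ps.2 h'⟩
      · refine ⟨y, hy, ?_⟩
        simp [litH_ps, litH_ng, litH_eqv, ix0, ix1, ix2, ix3, ix4]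
        tauto
    · refine ⟨x₁, h1, ?_⟩
      simp [litH_ps, litH_ng, litH_eqv, ix0, ix1, ix2, ix3, ix4]
      tauto
  · intro x₄ h4 x₃ h3 x₂ h2 x₁ h1
    by_cases h7 : R 7 [x₁]
    · rcases h.e2 x₁ h1 h7 with h' | ⟨y, hy, h'⟩
      · exact ⟨x₁, h1, _, List.mem_cons_of_mem _ (List.mem_cons_self ..), litH_ps.2 h'⟩
      · refine ⟨y, hy, ?_⟩
        simp [litH_ps, litH_ng, litH_eqv, ix0, ix1, ix2, ix3, ix4]
        tauto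
    · refine ⟨x₁, h1, ?_⟩
      simp [litH_ps, litH_ng, litH_eqv, ix0, ix1, ix2, ix3, ix4]
      tauto
  · intro x₄ h4 x₃ h3 x₂ h2 x₁ h1
    rcases h.e3 x₁ h1 with h' | ⟨y, hy, h'⟩
    · refine ⟨x₁, h1, ?_⟩
      simp [litH_ps, litH_ng, litH_eqv, ix0, ix1, ix2, ix3, ix4]
      tauto
    · refine ⟨y, hy, ?_⟩
      simp [litH_ps, litH_ng, litH_eqv, ix0, ix1, ix2, ix3, ix4]
      tauto
  · intro x₄ h4 x₃ h3 x₂ h2 x₁ h1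
    by_cases h7 : R 5 [x₁, x₂, x₃]
    · obtain ⟨t, ht, h'⟩ := h.e5 x₁ h1 x₂ h2 x₃ h3 h7
      refine ⟨t, ht, ?_⟩
      simp [litH_ps, litH_ng, litH_eqv, ix0, ix1, ix2, ix3, ix4]
      tauto
    · refine ⟨x₁, h1, ?_⟩
      simp [litH_ps, litH_ng, litH_eqv, ix0, ix1, ix2, ix3, ix4]
      tauto
  · intro x₄ h4 x₃ h3 x₂ h2 x₁ h1
    refine ⟨x₁, h1, ?_⟩
    simp [litH_ps, litH_ng, litH_eqv, ix0, ix1, ix2, ix3, ix4]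
    have := h.n1 x₁ h1 x₂ h2 x₃ h3 x₄ h4
    tauto

end Pool.Agent.V8H38.HF
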