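import Pool.Agent.V8H38.HF.Ax

/-!
# The meaning of the clauses about the machine
-/

namespace Pool.Agent.V8H38.HF

open Function Pool.Agent.NPC Pool.Agent.H593R3.FBC

variable {R : Rels ℕ} {c : Set ℕ}

theorem m_k0 (K : ℕ) : ClH R c [ng 0 [1], ps K [1, 1]] ↔
    ∀ x ∈ c, R 0 [x] → R K [x, x] := by
  constructor
  · intro h x hx
    have := h.use hx hx hx hx
    simp [litH_ps, litH_ng, litH_eqv, ix0, ix1, ix2, ix3, ix4, pre] at this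
    tauto
  · intro h x₄ h4 x₃ h3 x₂ h2 x₁ h1
    refine ⟨x₁, h1, ?_⟩
    have := h x₁ h1
    simp [litH_ps, litH_ng, litH_eqv, ix0, ix1, ix2, ix3, ix4, pre]
    tauto

theorem m_ku (K : ℕ) : ClH R c [ng K [1, 2], ng K [1, 3], eqv 2 3] ↔
    ∀ x ∈ c, ∀ y ∈ c, ∀ z ∈ c, R K [x, y] → R K [x, z] → y = z := by
  constructor
  · intro h x hx y hy v hv
    have := h.use hx hy hv hx
    simp [litH_ps, litH_ng, litH_eqv, ix0, ix1, ix2, ix3, ix4, pre] at this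
    tauto
  · intro h x₄ h4 x₃ h3 x₂ h2 x₁ h1
    refine ⟨x₁, h1, ?_⟩
    have := h x₁ h1 x₂ h2 x₃ h3
    simp [litH_ps, litH_ng, litH_eqv, ix0, ix1, ix2, ix3, ix4, pre]
    tauto

theorem m_q0 (Q : ℕ) : ClH R c [ng 0 [1], ps Q [1]] ↔
    ∀ x ∈ c, R 0 [x] → R Q [x] := by
  constructor
  · intro h x hx
    have := h.use hx hx hx hx
    simp [litH_ps, litH_ng, litH_eqv, ix0, ix1, ix2, ix3, ix4, pre] at this
    tauto
  · intro h x₄ h4 x₃ h3 x₂ h2 x₁ h1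
    refine ⟨x₁, h1, ?_⟩
    have := h x₁ h1
    simp [litH_ps, litH_ng, litH_eqv, ix0, ix1, ix2, ix3, ix4, pre]
    tauto

theorem m_qu (Q Q' : ℕ) : ClH R c [ng Q [1], ng Q' [1]] ↔
    ∀ x ∈ c, R Q [x] → ¬ R Q' [x] := by
  constructor
  · intro h x hx
    have := h.use hx hx hx hx
    simp [litH_ps, litH_ng, litH_eqv, ix0, ix1, ix2, ix3, ix4, pre] at this
    tauto
  · intro h x₄ h4 x₃ h3 x₂ h2 x₁ h1
    refine ⟨x₁, h1, ?_⟩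
    have := h x₁ h1
    simp [litH_ps, litH_ng, litH_eqv, ix0, ix1, ix2, ix3, ix4, pre]
    tauto

theorem m_t1 (q Q' : ℕ) : ClH R c (pre q ++ [ps Q' [2]]) ↔
    ∀ x ∈ c, ∀ y ∈ c, R (8 + q) [x] → R 2 [x, y] → R Q' [y] := by
  constructor
  · intro h x hx y hy
    have := h.use hx hy hx hx
    simp [litH_ps, litH_ng, litH_eqv, ix0, ix1, ix2, ix3, ix4, pre] at this
    tauto
  · intro h x₄ h4 x₃ h3 x₂ h2 x₁ h1
    refine ⟨x₁, h1, ?_⟩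
    have := h x₁ h1 x₂ h2
    simp [litH_ps, litH_ng, litH_eqv, ix0, ix1, ix2, ix3, ix4, pre]
    tauto

theorem m_t2 (q K : ℕ) : ClH R c (pre q ++ [ng K [1, 3], ng 2 [3, 4], ps K [2, 4]]) ↔
    ∀ x ∈ c, ∀ y ∈ c, ∀ v ∈ c, ∀ w ∈ c, R (8 + q) [x] → R 2 [x, y] → R K [x, v] → R 2 [v, w] → R K [y, w] := by
  constructor
  · intro h x hx y hy v hv w hw
    have := h.use hx hy hv hw
    simp [litH_ps, litH_ng, litH_eqv, ix0, ix1, ix2, ix3, ix4, pre] at this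
    tauto
  · intro h x₄ h4 x₃ h3 x₂ h2 x₁ h1
    refine ⟨x₁, h1, ?_⟩
    have := h x₁ h1 x₂ h2 x₃ h3 x₄ h4
    simp [litH_ps, litH_ng, litH_eqv, ix0, ix1, ix2, ix3, ix4, pre]
    tauto

theorem m_t3 (q K Q' : ℕ) : ClH R c (pre q ++ [ng K [1, 3], ng 0 [3], ps Q' [2]]) ↔
    ∀ x ∈ c, ∀ y ∈ c, ∀ v ∈ c, R (8 + q) [x] → R 2 [x, y] → R K [x, v] → R 0 [v] → R Q' [y] := by
  constructor
  · intro h x hx y hy v hv
    have := h.use hx hy hv hx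
    simp [litH_ps, litH_ng, litH_eqv, ix0, ix1, ix2, ix3, ix4, pre] at this
    tauto
  · intro h x₄ h4 x₃ h3 x₂ h2 x₁ h1
    refine ⟨x₁, h1, ?_⟩
    have := h x₁ h1 x₂ h2 x₃ h3
    simp [litH_ps, litH_ng, litH_eqv, ix0, ix1, ix2, ix3, ix4, pre]
    tauto

theorem m_t4 (q K : ℕ) : ClH R c (pre q ++ [ng K [1, 3], ng 0 [3], ps K [2, 3]]) ↔
    ∀ x ∈ c, ∀ y ∈ c, ∀ v ∈ c, R (8 + q) [x] → R 2 [x, y] → R K [x, v] → R 0 [v] → R K [y, v] := by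
  constructor
  · intro h x hx y hy v hv
    have := h.use hx hy hv hx
    simp [litH_ps, litH_ng, litH_eqv, ix0, ix1, ix2, ix3, ix4, pre] at this
    tauto
  · intro h x₄ h4 x₃ h3 x₂ h2 x₁ h1
    refine ⟨x₁, h1, ?_⟩
    have := h x₁ h1 x₂ h2 x₃ h3
    simp [litH_ps, litH_ng, litH_eqv, ix0, ix1, ix2, ix3, ix4, pre]
    tauto

theorem m_t5 (q K Q' : ℕ) : ClH R c (pre q ++ [ng K [1, 3], ng 2 [4, 3], ps Q' [2]]) ↔
    ∀ x ∈ c, ∀ y ∈ c, ∀ v ∈ c, ∀ w ∈ c, R (8 + q) [x] → R 2 [x, y] → R K [x, v] → R 2 [w, v] → R Q' [y] := by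
  constructor
  · intro h x hx y hy v hv w hw
    have := h.use hx hy hv hw
    simp [litH_ps, litH_ng, litH_eqv, ix0, ix1, ix2, ix3, ix4, pre] at this
    tauto
  · intro h x₄ h4 x₃ h3 x₂ h2 x₁ h1
    refine ⟨x₁, h1, ?_⟩
    have := h x₁ h1 x₂ h2 x₃ h3 x₄ h4
    simp [litH_ps, litH_ng, litH_eqv, ix0, ix1, ix2, ix3, ix4, pre]
    tauto

theorem m_t6 (q K : ℕ) : ClH R c (pre q ++ [ng K [1, 3], ng 2 [4, 3], ps K [2, 4]]) ↔
    ∀ x ∈ c, ∀ y ∈ c, ∀ v ∈ c, ∀ w ∈ c, R (8 + q) [x] → R 2 [x, y] → R K [x, v] → R 2 [w, v] → R K [y, w] := by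
  constructor
  · intro h x hx y hy v hv w hw
    have := h.use hx hy hv hw
    simp [litH_ps, litH_ng, litH_eqv, ix0, ix1, ix2, ix3, ix4, pre] at this
    tauto
  · intro h x₄ h4 x₃ h3 x₂ h2 x₁ h1
    refine ⟨x₁, h1, ?_⟩
    have := h x₁ h1 x₂ h2 x₃ h3 x₄ h4
    simp [litH_ps, litH_ng, litH_eqv, ix0, ix1, ix2, ix3, ix4, pre]
    tauto

theorem m_t7 (q K : ℕ) : ClH R c (pre q ++ [ng K [1, 3], ps K [2, 3]]) ↔
    ∀ x ∈ c, ∀ y ∈ c, ∀ v ∈ c, R (8 + q) [x] → R 2 [x, y] → R K [x, v] → R K [y, v] := by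
  constructor
  · intro h x hx y hy v hv
    have := h.use hx hy hv hx
    simp [litH_ps, litH_ng, litH_eqv, ix0, ix1, ix2, ix3, ix4, pre] at this
    tauto
  · intro h x₄ h4 x₃ h3 x₂ h2 x₁ h1
    refine ⟨x₁, h1, ?_⟩
    have := h x₁ h1 x₂ h2 x₃ h3
    simp [litH_ps, litH_ng, litH_eqv, ix0, ix1, ix2, ix3, ix4, pre]
    tauto

theorem m_t8 (q K : ℕ) : ClH R c (pre q ++ [ps K [2, 1]]) ↔
    ∀ x ∈ c, ∀ y ∈ c, R (8 + q) [x] → R 2 [x, y] → R K [y, x] := by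
  constructor
  · intro h x hx y hy
    have := h.use hx hy hx hx
    simp [litH_ps, litH_ng, litH_eqv, ix0, ix1, ix2, ix3, ix4, pre] at this
    tauto
  · intro h x₄ h4 x₃ h3 x₂ h2 x₁ h1
    refine ⟨x₁, h1, ?_⟩
    have := h x₁ h1 x₂ h2
    simp [litH_ps, litH_ng, litH_eqv, ix0, ix1, ix2, ix3, ix4, pre]
    tauto

theorem m_t9 (q K : ℕ) : ClH R c (pre q ++ [ng 0 [3], ps K [2, 3]]) ↔
    ∀ x ∈ c, ∀ y ∈ c, ∀ v ∈ c, R (8 + q) [x] → R 2 [x, y] → R 0 [v] → R K [y, v] := by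
  constructor
  · intro h x hx y hy v hv
    have := h.use hx hy hv hx
    simp [litH_ps, litH_ng, litH_eqv, ix0, ix1, ix2, ix3, ix4, pre] at this
    tauto
  · intro h x₄ h4 x₃ h3 x₂ h2 x₁ h1
    refine ⟨x₁, h1, ?_⟩
    have := h x₁ h1 x₂ h2 x₃ h3
    simp [litH_ps, litH_ng, litH_eqv, ix0, ix1, ix2, ix3, ix4, pre]
    tauto

end Pool.Agent.V8H38.HF
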