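import Pool.Agent.V8H38.HF.Defs
import Pool.Agent.H593R3.FBC.Prog

/-!
# Sentences given by lists of clauses
-/

namespace Pool.Agent.V8H38.HF

open Function Pool.Agent.NPC Pool.Agent.H593R3.FBC

/-! ### Relativized truth -/

/-- truth with quantifiers over `c` -/
def SatR (R : Rels ℕ) (c : Set ℕ) : {n : ℕ} → FO n → (Fin n → ℕ) → Prop
  | _, .rel i l, v => R i (l.map v)
  | _, .eq a b, v => v a = v b
  | _, .neg φ, v => ¬ SatR R c φ v
  | _, .and φ ψ, v => SatR R c φ v ∧ SatR R c ψ v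
  | _, .all φ, v => ∀ a ∈ c, SatR R c φ (Matrix.vecCons a v)

/-- the facts -/
def fc (I : Inst) : Rels ℕ := fun i l => (i, l) ∈ I.2

/-- the numbers of the elements of `S` -/
def img {n : ℕ} (S : Set (Fin n)) : Set ℕ := {a | ∃ h : a < n, (⟨a, h⟩ : Fin n) ∈ S}

theorem sat_sub {I : Inst} {S : Set (Fin I.1.length)} {n : ℕ} (φ : FO n) :
    ∀ v : Fin n → S, φ.Sat (sub (struc I) S) v ↔
      SatR (fc I) (img S) φ (fun i => ((v i).1 : Fin I.1.length).1) := by
  induction φ with
  | rel i l =>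
    intro v
    simp only [FO.Sat, SatR, sub, struc, fc, List.map_map]
    rfl
  | eq a b =>
    intro v
    simp only [FO.Sat, SatR]
    rw [Subtype.ext_iff, Fin.ext_iff]
  | neg φ ih =>
    intro v
    simp only [FO.Sat, SatR, ih]
  | and φ ψ ih1 ih2 =>
    intro v
    simp only [FO.Sat, SatR, ih1, ih2]
  | all φ ih =>
    intro v
    simp only [FO.Sat, SatR, ih]
    have key : ∀ (a : S), (fun i => ((Matrix.vecCons a v i).1 : Fin I.1.length).1) =
        Matrix.vecCons (a.1 : Fin I.1.length).1 (fun i => ((v i).1 : Fin I.1.length).1) := by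
      intro a
      funext i
      refine Fin.cases ?_ (fun j => ?_) i
      · rfl
      · rfl
    constructor
    · rintro h a ⟨ha, hS⟩
      have := h ⟨⟨a, ha⟩, hS⟩
      rwa [key] at this
    · intro h a
      rw [key]
      exact h _ ⟨a.1.2, a.2⟩

/-! ### Clauses -/

/-- Literals: sign, symbol (zero is the equality, `i + 1` the relation number `i`), variables. -/
abbrev Lt : Type := Bool × ℕ × List ℕ

/-- Clauses. -/
abbrev Cl : Type := List Lt

/-- variables -/
def ix (a : ℕ) : Fin 5 := Fin.ofNat 5 a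

/-- atoms -/
def atomF (t : Lt) : FO 5 :=
  if t.2.1 = 0 then .eq (ix (t.2.2.getD 0 0)) (ix (t.2.2.getD 1 0))
  else .rel (t.2.1 - 1) (t.2.2.map ix)

/-- literals -/
def litF (t : Lt) : FO 5 := if t.1 = true then atomF t else .neg (atomF t)

/-- disjunctions -/
def orF : List (FO 5) → FO 5
  | [] => .neg (.eq 0 0)
  | a :: l => .neg (.and (.neg a) (.neg (orF l)))

/-- the sentence of a clause: four universal quantifiers and an existential one -/
def clF (cl : Cl) : FO 0 := .all (.all (.all (.all (.neg (.all (.neg (orF (cl.map litF))))))))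

/-- conjunctions -/
def andF : List (FO 0) → FO 0
  | [] => .all (.eq 0 0)
  | a :: l => .and a (andF l)

/-- the sentence -/
def psiF (cls : List Cl) : FO 0 := andF (cls.map clF)

/-- truth of atoms -/
def AtH (R : Rels ℕ) (t : Lt) (v : Fin 5 → ℕ) : Prop :=
  if t.2.1 = 0 then v (ix (t.2.2.getD 0 0)) = v (ix (t.2.2.getD 1 0))
  else R (t.2.1 - 1) (t.2.2.map (fun a => v (ix a)))

/-- truth of literals -/
def LitH (R : Rels ℕ) (t : Lt) (v : Fin 5 → ℕ) : Prop :=
  if t.1 = true then AtH R t v else ¬ AtH R t v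

/-- truth of clauses -/
def ClH (R : Rels ℕ) (c : Set ℕ) (cl : Cl) : Prop :=
  ∀ x₄ ∈ c, ∀ x₃ ∈ c, ∀ x₂ ∈ c, ∀ x₁ ∈ c, ∃ y ∈ c, ∃ t ∈ cl, LitH R t ![y, x₁, x₂, x₃, x₄]

/-- truth of the sentence -/
def Psi (R : Rels ℕ) (c : Set ℕ) (cls : List Cl) : Prop := ∀ cl ∈ cls, ClH R c cl

theorem satR_lit {R : Rels ℕ} {c : Set ℕ} (t : Lt) (v : Fin 5 → ℕ) :
    SatR R c (litF t) v ↔ LitH R t v := by
  unfold litF LitH
  have h : SatR R c (atomF t) v ↔ AtH R t v := by
    unfold atomF AtH
    split_ifs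
    · simp only [SatR]
    · simp only [SatR, List.map_map]
      rfl
  split_ifs
  · exact h
  · simp only [SatR, h]

theorem satR_or {R : Rels ℕ} {c : Set ℕ} (l : List (FO 5)) (v : Fin 5 → ℕ) :
    SatR R c (orF l) v ↔ ∃ φ ∈ l, SatR R c φ v := by
  induction l with
  | nil => simp [orF, SatR]
  | cons a l ih =>
    simp only [orF, SatR, ih, List.mem_cons, exists_eq_or_imp]
    rw [not_and_or, not_not, not_not]

theorem satR_cl {R : Rels ℕ} {c : Set ℕ} (cl : Cl) :
    SatR R c (clF cl) ![] ↔ ClH R c cl := by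
  simp only [clF, SatR, satR_or, List.mem_map, ClH, not_forall, not_not, exists_exists_and_eq_and,
    satR_lit, exists_prop]

theorem satR_psi {R : Rels ℕ} {c : Set ℕ} (cls : List Cl) :
    SatR R c (psiF cls) ![] ↔ Psi R c cls := by
  unfold psiF Psi
  induction cls with
  | nil => simp [andF, SatR]
  | cons a l ih =>
    simp only [List.map_cons, andF, SatR, List.mem_cons, forall_eq_or_imp, satR_cl]
    rw [ih]

/-- The problem in terms of the clauses. -/
theorem her_iff {τ : List ℕ} {cls : List Cl} {I : Inst} : HER τ (.neg (psiF cls)) I ↔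
    IsInst τ I ∧ 0 < I.1.length ∧ ¬ ∃ c : Set ℕ, c.Nonempty ∧ (∀ a ∈ c, a < I.1.length) ∧
      Psi (fc I) c cls := by
  unfold HER
  refine and_congr_right fun _ => and_congr_right fun _ => ?_
  have e : ∀ S : Set (Fin I.1.length), (FO.neg (psiF cls)).Sat (sub (struc I) S) ![] ↔
      ¬ Psi (fc I) (img S) cls := by
    intro S
    rw [sat_sub]
    have h0 : (fun i : Fin 0 => (((![] : Fin 0 → S) i).1 : Fin I.1.length).1) = ![] := by
      funext i; exact i.elim0
    rw [h0]
    simp only [SatR]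
    rw [satR_psi]
  simp only [e]
  constructor
  · rintro h ⟨c, ⟨a, ha⟩, hc, hp⟩
    refine h {x | x.1 ∈ c} ⟨⟨a, hc a ha⟩, ha⟩ ?_
    have : img {x : Fin I.1.length | x.1 ∈ c} = c := by
      ext b
      simp only [img, Set.mem_ofPred_eq]
      exact ⟨fun ⟨_, h⟩ => h, fun h => ⟨hc b h, h⟩⟩
    rwa [this]
  · rintro h S ⟨a, ha⟩ hp
    exact h ⟨img S, ⟨a.1, a.2, ha⟩, fun b hb => hb.1, hp⟩

/-! ### Signatures -/

/-- the literal is a literal of the signature -/
def LtOK (τ : List ℕ) (t : Lt) : Prop := t.2.1 = 0 ∨ τ[t.2.1 - 1]? = some t.2.2.length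

theorem over_or {τ : List ℕ} (l : List (FO 5)) (h : ∀ φ ∈ l, φ.Over τ) : (orF l).Over τ := by
  induction l with
  | nil => simp [orF, FO.Over]
  | cons a l ih =>
    simp only [List.mem_cons, forall_eq_or_imp] at h
    exact ⟨h.1, ih h.2⟩

theorem over_psi {τ : List ℕ} (cls : List Cl) (h : ∀ cl ∈ cls, ∀ t ∈ cl, LtOK τ t) :
    (psiF cls).Over τ := by
  unfold psiF
  induction cls with
  | nil => simp [andF, FO.Over]
  | cons a l ih =>
    simp only [List.mem_cons, forall_eq_or_imp] at h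
    simp only [List.map_cons, andF]
    refine ⟨?_, ih h.2⟩
    refine over_or _ fun φ hφ => ?_
    obtain ⟨t, ht, rfl⟩ := List.mem_map.1 hφ
    have h1 := h.1 t ht
    have h2 : (atomF t).Over τ := by
      unfold atomF
      split_ifs with h3
      · trivial
      · rcases h1 with h1 | h1
        · exact absurd h1 h3
        · simpa [FO.Over] using h1
    unfold litF
    split_ifs
    · exact h2
    · exact h2

/-! ### The test -/

/-- atoms -/
def atB (I : Inst) (t : Lt) (e : List ℕ) : Bool :=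
  if t.2.1 = 0 then decide (e.getD (t.2.2.getD 0 0 % 5) 0 = e.getD (t.2.2.getD 1 0 % 5) 0)
  else decide ((t.2.1 - 1, t.2.2.map (fun a => e.getD (a % 5) 0)) ∈ I.2)

/-- literals -/
def litB (I : Inst) (t : Lt) (e : List ℕ) : Bool :=
  if t.1 = true then atB I t e else !(atB I t e)

/-- the test for the sentence on the substructure with domain `b` -/
def tst (cls : List Cl) (I : Inst) (b : List ℕ) : Bool :=
  cls.all (fun cl => b.all (fun x₄ => b.all (fun x₃ => b.all (fun x₂ => b.all (fun x₁ =>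
    b.any (fun y => cl.any (fun t => litB I t [y, x₁, x₂, x₃, x₄])))))))

theorem getD_ix (y x₁ x₂ x₃ x₄ a : ℕ) :
    [y, x₁, x₂, x₃, x₄].getD (a % 5) 0 = (![y, x₁, x₂, x₃, x₄] : Fin 5 → ℕ) (ix a) := by
  have h : a % 5 < 5 := Nat.mod_lt _ (by norm_num)
  have e : ix a = ⟨a % 5, h⟩ := rfl
  rw [e]
  generalize a % 5 = b at h
  interval_cases b <;> rfl

theorem litB_iff {I : Inst} {t : Lt} {y x₁ x₂ x₃ x₄ : ℕ} :
    litB I t [y, x₁, x₂, x₃, x₄] = true ↔ LitH (fc I) t ![y, x₁, x₂, x₃, x₄] := by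
  have h : atB I t [y, x₁, x₂, x₃, x₄] = true ↔ AtH (fc I) t ![y, x₁, x₂, x₃, x₄] := by
    unfold atB AtH
    simp only [getD_ix, fc]
    split_ifs <;> simp
  unfold litB LitH
  split_ifs
  · exact h
  · rw [Bool.not_eq_true', ← Bool.not_eq_true, h]

theorem tst_iff {cls : List Cl} {I : Inst} {b : List ℕ} :
    tst cls I b = true ↔ Psi (fc I) {a | a ∈ b} cls := by
  unfold tst Psi ClH
  simp only [List.all_eq_true, List.any_eq_true, litB_iff, Set.mem_ofPred_eq]

theorem poly_tst {α : Type} [TEnc α] {cls : α → List Cl} {I : α → Inst} {b : α → List ℕ}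
    (h1 : Poly cls) (h2 : Poly I) (h3 : Poly b) : Poly (fun a => tst (cls a) (I a) (b a)) := by
  unfold tst litB atB
  fun_prop

end Pool.Agent.V8H38.HF
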