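import Pool.Agent.V8H38.HF.Sound

/-!
# The simulation of a machine given by its table, and the instances given by formulas
-/

namespace Pool.Agent.V8H38.HF

open Function Pool.Agent.NPC Pool.Agent.H593R3.FBC

/-- The data of a machine: the table, the number of counters in unary, the signature, and the
clauses. -/
abbrev Dat : Type := List (ℕ × ℕ × ℕ × ℕ) × List Unit × List ℕ × List Cl

/-- The data of the machine `m`. -/
def dat (m : Mach) : Dat := (tbl m, List.replicate m.nK (), tauH m, clsH m)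

/-- The configuration at time `i`. -/
def conf (D : Dat) (u : List Unit) (i : ℕ) : ℕ × ℕ × List ℕ :=
  (stp D.1)^[min i u.length] (0, 0, D.2.1.map (fun _ => 0))

theorem conf_eq {m : Mach} (hm : m.OK) {u : List Unit} {i : ℕ} (hi : i ≤ u.length) :
    conf (dat m) u i = (i, m.lab i, (List.range m.nK).map (m.cnt i)) := by
  unfold conf
  rw [min_eq_left hi, ← stp_iterate hm]
  simp [dat]

theorem sz_getD4 (tb : List (ℕ × ℕ × ℕ × ℕ)) (q : ℕ) :
    sz (tb.getD q (2, 0, 0, 0)).2.2.1 ≤ sz tb ∧ sz (tb.getD q (2, 0, 0, 0)).2.2.2 ≤ sz tb := by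
  rw [List.getD_eq_getElem?_getD]
  cases h : tb[q]? with
  | none =>
    have h1 := sz_pos tb
    have h2 : sz (0 : ℕ) = 1 := rfl
    simp only [Option.getD_none, h2]
    omega
  | some a =>
    have h1 := sz_le_of_mem (List.mem_of_getElem? h)
    obtain ⟨a, b, c, d⟩ := a
    simp only [Option.getD_some, sz_pair] at *
    omega

theorem mem_setL {l : List ℕ} {k v a : ℕ} (h : a ∈ setL l k v) : a = v ∨ a ∈ l := by
  unfold setL at h
  obtain ⟨p, hp, e⟩ := List.mem_map.1 h
  split_ifs at e with h1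
  · exact Or.inl e.symm
  · exact Or.inr (e ▸ List.fst_mem_of_mem_zipIdx hp)

theorem getD_le {l : List ℕ} {B : ℕ} (h : ∀ a ∈ l, a ≤ B) (k : ℕ) : l.getD k 0 ≤ B := by
  rw [List.getD_eq_getElem?_getD]
  cases h' : l[k]? with
  | none => simp
  | some a => exact h a (List.mem_of_getElem? h')

theorem stp_inv (tb : List (ℕ × ℕ × ℕ × ℕ)) (l₀ : List ℕ) (h₀ : ∀ a ∈ l₀, a = 0) (k : ℕ) :
    ((stp tb)^[k] (0, 0, l₀)).1 = k ∧ sz ((stp tb)^[k] (0, 0, l₀)).2.1 ≤ sz tb ∧
      ((stp tb)^[k] (0, 0, l₀)).2.2.length = l₀.length ∧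
      ∀ a ∈ ((stp tb)^[k] (0, 0, l₀)).2.2, a ≤ k := by
  induction k with
  | zero =>
    refine ⟨rfl, ?_, rfl, fun a ha => (h₀ a ha).le⟩
    have h1 := sz_pos tb
    have h2 : sz (0 : ℕ) = 1 := rfl
    simp only [iterate_zero, id_eq, h2]
    omega
  | succ k ih =>
    rw [iterate_succ_apply']
    obtain ⟨i1, i2, i3, i4⟩ := ih
    generalize (stp tb)^[k] (0, 0, l₀) = s at *
    have hg := sz_getD4 tb s.2.1
    unfold stp
    have hl : ∀ v, (setL s.2.2 (tb.getD s.2.1 (2, 0, 0, 0)).2.1 v).length = l₀.length := by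
      intro v
      simp [setL, i3]
    split_ifs with h1 h2 h3 h4
    · refine ⟨by simp [i1], hg.1, hl _, fun a ha => ?_⟩
      rcases mem_setL ha with rfl | h
      · have := getD_le i4 (tb.getD s.2.1 (2, 0, 0, 0)).2.1
        omega
      · have := i4 a h
        omega
    · refine ⟨by simp [i1], hg.2, i3, fun a ha => ?_⟩
      have := i4 a ha
      omega
    · refine ⟨by simp [i1], hg.1, hl _, fun a ha => ?_⟩
      rcases mem_setL ha with rfl | h
      · have := getD_le i4 (tb.getD s.2.1 (2, 0, 0, 0)).2.1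
        omega
      · have := i4 a h
        omega
    · refine ⟨by simp [i1], hg.1, i3, fun a ha => ?_⟩
      have := i4 a ha
      omega
    · refine ⟨by simp [i1], hg.1, by simp [i3], fun a ha => ?_⟩
      obtain ⟨p, hp, e⟩ := List.mem_map.1 ha
      split_ifs at e <;> omega

theorem poly_stp2 : Poly (fun p : List (ℕ × ℕ × ℕ × ℕ) × ℕ × ℕ × List ℕ => stp p.1 p.2) := by
  unfold stp setL
  fun_prop

theorem poly_conf {α : Type} [TEnc α] {D : α → Dat} {u : α → List Unit} {i : α → ℕ}
    (hD : Poly D) (hu : Poly u) (hi : Poly i) : Poly (fun a => conf (D a) (u a) (i a)) := by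
  have h : Poly (fun p : Dat × List Unit × ℕ => conf p.1 p.2.1 p.2.2) := by
    unfold conf
    refine poly_iterU (F := fun (p : Dat × List Unit × ℕ) s => stp p.1.1 s) ?_ (by fun_prop) ?_
      ((4 * Polynomial.X + 1) + (Polynomial.X + (Polynomial.X *
        (4 * Polynomial.X + 1 + 1) + 1) + 1) + 1) ?_
    · exact Pool.Agent.H639R2.NTP.uPoly_min' (by fun_prop) (UPoly.length (by fun_prop))
    · exact poly_stp2.comp (f := fun p : (Dat × List Unit × ℕ) × ℕ × ℕ × List ℕ => (p.1.1.1, p.2))
        (by fun_prop)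
    · rintro ⟨⟨tb, kL, τ, cls⟩, u, i⟩ k hk
      simp only at hk
      have hk2 : k ≤ sz u := by
        have := length_lt_sz u
        omega
      obtain ⟨i1, i2, i3, i4⟩ := stp_inv tb (kL.map (fun _ => 0)) (by simp) k
      simp only
      generalize (stp tb)^[k] (0, 0, kL.map (fun _ => 0)) = s at *
      obtain ⟨t, q, l⟩ := s
      simp only at i1 i2 i3 i4
      subst i1
      rw [List.length_map] at i3
      have e1 := sz_nat_le' t
      have e4 := sz_le_length_mul l (4 * t + 1) (by
        intro a ha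
        have := sz_nat_le' a
        have := i4 a ha
        omega)
      rw [i3] at e4
      have e5 := length_lt_sz kL
      simp only [sz_pair, Polynomial.eval_add, Polynomial.eval_mul, Polynomial.eval_X,
        Polynomial.eval_ofNat, Polynomial.eval_one] at *
      set X := sz tb + (sz kL + (sz τ + sz cls + 1) + 1) + 1 + (sz u + sz i + 1) + 1 with hX
      have e6 : kL.length * (4 * t + 1 + 1) ≤ X * (4 * X + 1 + 1) :=
        Nat.mul_le_mul (by omega) (by omega)
      omega
  exact h.comp (f := fun a => (D a, u a, i a)) (by fun_prop)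

attribute [fun_prop] poly_conf

end Pool.Agent.V8H38.HF
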