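import Pool.Agent.H593R3.FBC.Defs

/-!
# Hereditary model checking of first-order sentences

A finite relational signature is the list `τ` of the arities of its symbols, which are the numbers
`i < τ.length`. Structures are given by the relations `r i : List A → Prop`.
-/

namespace Pool.Agent.V8H38.HF

open Pool.Agent.NPC Pool.Agent.H593R3.FBC

/-- First-order formulas with equality, in the variables `x_0, ..., x_{n-1}`. The formula `all φ`
is the universal quantification over the variable `x_0` of `φ`; the variable `x_{i+1}` of `φ` is
the variable `x_i` of `all φ`. Sentences are the formulas without variables, `FO 0`. -/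
inductive FO : ℕ → Type
  | rel {n : ℕ} (i : ℕ) (l : List (Fin n)) : FO n
  | eq {n : ℕ} (a b : Fin n) : FO n
  | neg {n : ℕ} (φ : FO n) : FO n
  | and {n : ℕ} (φ ψ : FO n) : FO n
  | all {n : ℕ} (φ : FO (n + 1)) : FO n

/-- The formula is a formula of the signature `τ`: the number of arguments of each symbol is its
arity. -/
def FO.Over (τ : List ℕ) : {n : ℕ} → FO n → Prop
  | _, .rel i l => τ[i]? = some l.length
  | _, .eq _ _ => True
  | _, .neg φ => φ.Over τ
  | _, .and φ ψ => φ.Over τ ∧ ψ.Over τ
  | _, .all φ => φ.Over τ

/-- The truth of a formula in the structure with domain `A` and relations `r`, for the values `v`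
of the variables. -/
def FO.Sat {A : Type} (r : Rels A) : {n : ℕ} → FO n → (Fin n → A) → Prop
  | _, .rel i l, v => r i (l.map v)
  | _, .eq a b, v => v a = v b
  | _, .neg φ, v => ¬ φ.Sat r v
  | _, .and φ ψ, v => φ.Sat r v ∧ ψ.Sat r v
  | _, .all φ, v => ∀ a : A, φ.Sat r (Matrix.vecCons a v)

/-- The relations of the induced substructure with domain `S`. -/
def sub {A : Type} (r : Rels A) (S : Set A) : Rels S := fun i l => r i (l.map Subtype.val)

/-- The relations of the finite structure given by `I`, with domain `{0, ..., n - 1}`, where `n`
is the length of the first component. -/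
def struc (I : Inst) : Rels (Fin I.1.length) := fun i l => (i, l.map Fin.val) ∈ I.2

/-- The problem `HER(φ)`: is `I` a structure (with signature `τ` and non-empty domain) such that
all its induced substructures with non-empty domain satisfy the sentence `φ`? -/
def HER (τ : List ℕ) (φ : FO 0) (I : Inst) : Prop :=
  IsInst τ I ∧ 0 < I.1.length ∧
    ∀ S : Set (Fin I.1.length), S.Nonempty → φ.Sat (sub (struc I) S) ![]

/-- The decision problem is `coNP`-intermediate: it is in `coNP`, but neither in `P` nor
`coNP`-complete with respect to polynomial-time many-one reductions. -/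
def CoNPIntermediate {α : Type} [TEnc α] (P : α → Prop) : Prop :=
  InCoNPP P ∧ ¬ InPP P ∧ ¬ CoNPHardP P

end Pool.Agent.V8H38.HF
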