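import Pool.Agent.V8H38.HF.Search

/-!
# The search succeeds, and the diagonal argument
-/

namespace Pool.Agent.V8H38.HF

open Function Pool.Agent.NPC Pool.Agent.H593R3.FBC Pool.Agent.H660R2.NX

attribute [local irreducible] unpair

theorem exists_V1 (hP : PNeNP) (x : ℕ) (d z : List Bool) :
    ∃ v : ℕ, ∀ᶠ N in Filter.atTop, V1 x d z (str v) N := by
  by_contra hcon'
  have hcon : ∀ v : ℕ, ¬ _ := fun v hv => hcon' ⟨v, hv⟩
  obtain ⟨L, hL, hL'⟩ := hP
  apply hL'
  obtain ⟨f, hf, hpr, hfL⟩ := hardPr_SAT3b L hL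
  have h1 : ∀ p : F3 × List Unit, Bounded3 p.1 → x ≤ nn p →
      (FU z x (bits (gen (decD d) p)) = [true] ↔ ¬ SAT3 p.1) := by
    intro p hb hx
    by_contra h
    apply hcon (Encodable.encode (bits p))
    rw [str_encode]
    filter_upwards [Filter.eventually_gt_atTop (nn p)] with N hN
    unfold V1
    rw [decF_bits, bdB_iff, ← sat_iff hb]
    exact ⟨hb, hx, hN, by tauto⟩
  have h2 : Poly (fun φ : F3 => gen (decD d) (φ, List.replicate x ())) :=
    poly_gen.comp (f := fun φ : F3 => (decD d, (φ, List.replicate x ())))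
      (NPC.Poly.pair (NPC.Poly.const _) (NPC.Poly.pair NPC.Poly.id (NPC.Poly.const _)))
  have h3 : PolyTime (fun y => bits (gen (decD d) (f y, List.replicate x ()))) :=
    PC.toPolyTime_bits h2 f hf
  have h4 : PolyTime (fun y => [!(decide (FU z x y = [true]))]) := by
    refine polyTime_of_poly (g := fun y => !(decide (FU z x y = [true]))) ?_
    have := poly_FU z x
    fun_prop
  refine ⟨_, H642R2.TMSim.polyTime_comp h4 h3, fun y => ?_⟩
  rw [hfL y]
  have h5 := h1 (f y, List.replicate x ()) (hpr y).2.1 (by simp [nn])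
  simp only [List.cons.injEq, and_true, Bool.not_eq_true', decide_eq_false_iff_not]
  rw [h5]
  simp

theorem exists_V2 (hP : PNeNP) (x : ℕ) (d z : List Bool) :
    ∃ v : ℕ, ∀ᶠ N in Filter.atTop, V2 x d z (str v) N := by
  by_contra hcon'
  have hcon : ∀ v : ℕ, ¬ _ := fun v hv => hcon' ⟨v, hv⟩
  obtain ⟨L, hL, hL'⟩ := hP
  apply hL'
  obtain ⟨f, hf, hpr, hfL⟩ := hardPr_SAT3b L hL
  have h1 : ∀ φ : F3, Bounded3 φ →
      (ES x d (FU z x (bits φ)) ↔ SAT3 φ) := by
    intro φ hb
    by_contra h
    apply hcon (Encodable.encode (bits ((φ, []) : F3 × List Unit)))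
    rw [str_encode]
    filter_upwards [Filter.eventually_ge_atTop ((unbits Inst (FU z x (bits φ))).elim 0
      (fun I => I.1.length))] with N hN
    unfold V2
    rw [decF_bits, bdB_iff, ← sat_iff hb]
    refine ⟨hb, ?_, by tauto⟩
    unfold smB
    cases hu : unbits Inst (FU z x (bits φ)) with
    | none => rfl
    | some I =>
      rw [hu] at hN
      simpa using hN
  have h2 : Poly (fun y : List Bool => dY (decD d) x (FU z x y)) :=
    (poly_dY (decD d) x).comp (poly_FU z x)
  have h3 : PolyTime (fun y => bits (f y)) := PC.toPolyTime hf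
  refine ⟨_, H642R2.TMSim.polyTime_comp (polyTime_of_poly h2) h3, fun y => ?_⟩
  rw [hfL y, ← h1 _ (hpr y).2.1, ES_iff, ← dY_iff]
  simp

/-- The search succeeds. -/
theorem exists_GS (hP : PNeNP) (x : ℕ) : ∃ N, GS x N := by
  have h1 : ∀ᶠ N in Filter.atTop, ∀ i ∈ (List.range x).toFinset, ∀ j ∈ (List.range x).toFinset,
      ∃ v ∈ List.range N, V1 x (str i) (str j) (str v) N := by
    rw [Filter.eventually_all_finset]
    intro i _
    rw [Filter.eventually_all_finset]
    intro j _
    obtain ⟨v, hv⟩ := exists_V1 hP x (str i) (str j)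
    filter_upwards [hv, Filter.eventually_gt_atTop v] with N h1 h2
    exact ⟨v, List.mem_range.2 h2, h1⟩
  have h2 : ∀ᶠ N in Filter.atTop, ∀ i ∈ (List.range x).toFinset, ∀ j ∈ (List.range x).toFinset,
      ∃ v ∈ List.range N, V2 x (str i) (str j) (str v) N := by
    rw [Filter.eventually_all_finset]
    intro i _
    rw [Filter.eventually_all_finset]
    intro j _
    obtain ⟨v, hv⟩ := exists_V2 hP x (str i) (str j)
    filter_upwards [hv, Filter.eventually_gt_atTop v] with N h1 h2
    exact ⟨v, List.mem_range.2 h2, h1⟩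
  obtain ⟨N, h3, h4⟩ := (h1.and h2).exists
  exact ⟨N, fun i hi j hj => h3 i (List.mem_toFinset.2 hi) j (List.mem_toFinset.2 hj),
    fun i hi j hj => h4 i (List.mem_toFinset.2 hi) j (List.mem_toFinset.2 hj)⟩

/-- The flags take the value `b` on arbitrarily late intervals on which the search for the left
end point succeeds. -/
def PhasesS (s : ℕ → Bool) (b : Bool) : Prop :=
  ∀ k : ℕ, ∃ x N : ℕ, k ≤ x ∧ GS x N ∧ ∀ n, x ≤ n → n < N → s n = b

/-- the problem of the machine -/
abbrev PH (m : Mach) : Inst → Prop := HER (tauH m) (.neg (psiF (clsH m)))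

theorem not_inPH {m : Mach} (hm : m.OK) (h : PhasesS m.flag true) : ¬ InPP (PH m) := by
  intro hP
  obtain ⟨V, hV, hV'⟩ := hP.exists_test
  obtain ⟨z, k, hz⟩ := exists_FU hV
  obtain ⟨x, N, hx, hG, hs⟩ := h (max k (max (Encodable.encode z + 1)
    (Encodable.encode (bits (dat m)) + 1)))
  obtain ⟨v, _, h1, h2, h3, h4⟩ := hG.1 (Encodable.encode (bits (dat m)))
    (List.mem_range.2 (by omega)) (Encodable.encode z) (List.mem_range.2 (by omega))
  rw [bdB_iff] at h1
  have h5 : PH m (gen (dat m) (decF (str v))) ↔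
    ¬ (m.flag (nn (decF (str v))) = true ∧ SAT3 (decF (str v)).1) := her_gen hm h1
  rw [str_encode, str_encode, decD_bits, hz x _ (by omega) (bits_ne_nil _), ← hV', h5,
    hs _ h2 h3, ← sat_iff h1] at h4
  simp only [true_and] at h4
  tauto

theorem inCoNPP_notBS : InCoNPP (fun φ : F3 => ¬ BS φ) := by
  have h1 : Poly (fun x : F3 × List Bool => bdB x.1 && chkS x.1 x.2) := by
    unfold bdB chkS
    fun_prop
  refine inCoNPP_of h1 (12 * Polynomial.X + 1) fun φ => ?_
  rw [not_not]
  unfold BS
  simp only [Bool.and_eq_true, bdB_iff]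
  constructor
  · rintro ⟨hb, hs⟩
    obtain ⟨c, hc, hc2⟩ := (sat_iff hb).1 hs
    rw [Pool.Agent.H639R2.NTP.C5.mem_allL] at hc
    refine ⟨c, ?_, hb, hc2⟩
    have e1 := sz_listBool_le c
    have e2 := length_lt_sz φ
    simp only [Polynomial.eval_add, Polynomial.eval_mul, Polynomial.eval_X,
      Polynomial.eval_ofNat, Polynomial.eval_one]
    omega
  · rintro ⟨c, _, hb, hc⟩
    refine ⟨hb, ?_⟩
    unfold chkS at hc
    simp only [List.all_eq_true, Bool.or_eq_true, decide_eq_true_eq] at hc
    refine ⟨fun i => c.getD i false, fun cl hcl => ?_⟩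
    rcases hc cl hcl with (h | h) | h
    · exact Or.inl h
    · exact Or.inr (Or.inl h)
    · exact Or.inr (Or.inr h)

theorem not_hardPH {m : Mach} (hm : m.OK) (h : PhasesS m.flag false) : ¬ CoNPHardP (PH m) := by
  intro hH
  obtain ⟨f, hf, hfL⟩ := hH _ inCoNPP_notBS
  obtain ⟨z, k, hz⟩ := exists_FU hf
  obtain ⟨x, N, hx, hG, hs⟩ := h (max k (max (Encodable.encode z + 1)
    (Encodable.encode (bits (dat m)) + 1)))
  obtain ⟨v, _, h2, h3, h4⟩ := hG.2 (Encodable.encode (bits (dat m)))
    (List.mem_range.2 (by omega)) (Encodable.encode z) (List.mem_range.2 (by omega))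
  rw [bdB_iff] at h2
  simp only [str_encode] at h3 h4
  rw [hz x _ (by omega) (bits_ne_nil _)] at h3 h4
  rw [ES_iff, decD_bits, ← sat_iff h2] at h4
  have h8 := hfL (bits (decF (str v)).1)
  rw [bits_mem_lang] at h8
  generalize f (bits (decF (str v)).1) = y at h3 h4 h8
  have h5 : y ∈ lang (PH m) ↔ ¬ EV x (dat m) y := by
    have e : y ∈ lang (PH m) ↔ ∃ I, unbits Inst y = some I ∧ PH m I := mem_lang_iff
    rw [e]
    unfold EV
    unfold smB at h3
    cases hu : unbits Inst y with
    | none => simp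
    | some I =>
      rw [hu] at h3
      simp only [Option.elim_some, decide_eq_true_eq, List.length_replicate] at h3
      simp only [Option.elim_some, Option.some.injEq, exists_eq_left']
      rw [← her_small hm hs h3, not_not]
  rw [h5] at h8
  have h9 : BS (decF (str v)).1 ↔ SAT3 (decF (str v)).1 := ⟨fun h => h.2, fun h => ⟨h2, h⟩⟩
  rw [h9] at h8
  tauto

theorem inCoNPP_PH (m : Mach) : InCoNPP (PH m) := by
  have h1 : Poly (fun x : Inst × List ℕ => badB (dat m) x.1 ||
      (!(decide (x.2 = [])) && x.2.all (fun a => decide (a < x.1.1.length)) &&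
        tst (clsH m) x.1 x.2)) := by
    have h2 : Poly (fun x : Inst × List ℕ => badB (dat m) x.1) :=
      poly_badB (by fun_prop) (by fun_prop)
    have h3 : Poly (fun x : Inst × List ℕ => tst (clsH m) x.1 x.2) :=
      poly_tst (by fun_prop) (by fun_prop) (by fun_prop)
    fun_prop
  refine inCoNPP_of h1 (Polynomial.X * (4 * Polynomial.X + 1 + 1) + 1) fun I => ?_
  have hlen : I.1.length ≤ sz I := by
    obtain ⟨a, b⟩ := I
    have := length_lt_sz a
    simp only [sz_pair]
    omega
  simp only [Bool.or_eq_true, Bool.and_eq_true, Bool.not_eq_true', decide_eq_false_iff_not,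
    decide_eq_true_eq, tst_iff, List.all_eq_true, badB_iff]
  change ¬ HER (tauH m) (.neg (psiF (clsH m))) I ↔ _
  rw [her_iff]
  change _ ↔ ∃ w : List ℕ, _ ∧ (¬ (IsInst (tauH m) I ∧ 0 < I.1.length) ∨ _)
  constructor
  · intro h
    by_cases h2 : IsInst (tauH m) I ∧ 0 < I.1.length
    · have h3 : ∃ c : Set ℕ, c.Nonempty ∧ (∀ a ∈ c, a < I.1.length) ∧ Psi (fc I) c (clsH m) := by
        by_contra hcon
        exact h ⟨h2.1, h2.2, hcon⟩
      obtain ⟨c, hc1, hc2, hc3⟩ := h3
      have hf : c.Finite := (Set.finite_lt_nat I.1.length).subset hc2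
      have hcb : {a | a ∈ hf.toFinset.toList} = c := by
        ext a
        simp
      refine ⟨hf.toFinset.toList, ?_, Or.inr ⟨⟨?_, ?_⟩, ?_⟩⟩
      · have h4 : hf.toFinset.toList.length ≤ I.1.length := by
          rw [Finset.length_toList]
          have h5 : hf.toFinset ⊆ Finset.range I.1.length := by
            intro a ha
            rw [Set.Finite.mem_toFinset] at ha
            exact Finset.mem_range.2 (hc2 a ha)
          have h6 := Finset.card_le_card h5
          rwa [Finset.card_range] at h6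
        have h5 := sz_le_length_mul hf.toFinset.toList (4 * I.1.length + 1) (by
          intro a ha
          have h6 := sz_nat_le' a
          have h7 := hc2 a (by simpa using ha)
          omega)
        simp only [Polynomial.eval_add, Polynomial.eval_mul, Polynomial.eval_X,
          Polynomial.eval_ofNat, Polynomial.eval_one]
        refine h5.trans ?_
        have h6 : hf.toFinset.toList.length * (4 * I.1.length + 1 + 1) ≤
            sz I * (4 * sz I + 1 + 1) := Nat.mul_le_mul (by omega) (by omega)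
        omega
      · intro h4
        obtain ⟨a, ha⟩ := hc1
        rw [← hcb, h4] at ha
        simp at ha
      · intro a ha
        exact hc2 a (by simpa using ha)
      · rw [hcb]
        exact hc3
    · refine ⟨[], ?_, Or.inl h2⟩
      simp only [Polynomial.eval_add, Polynomial.eval_mul, Polynomial.eval_X,
          Polynomial.eval_ofNat, Polynomial.eval_one, sz_list_nil]
      omega
  · rintro ⟨w, _, h | ⟨⟨h1, h2⟩, h3⟩⟩
    · rintro ⟨h1, h2, _⟩
      exact h ⟨h1, h2⟩
    · rintro ⟨_, _, h4⟩
      obtain ⟨a, ha⟩ := List.exists_mem_of_ne_nil w h1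
      exact h4 ⟨{a | a ∈ w}, ⟨a, ha⟩, h2, h3⟩

end Pool.Agent.V8H38.HF
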