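import Pool.Agent.V8H38.HF.Gen3

/-!
# Substructures of bounded size
-/

namespace Pool.Agent.V8H38.HF

open Function Pool.Agent.NPC Pool.Agent.H593R3.FBC
open Pool.Agent.H639R2.NTP.C5 (allL mem_allL)

/-- Is the structure not well formed? -/
def badB (D : Dat) (I : Inst) : Bool :=
  !(I.2.all (fun p => decide (D.2.2.1[p.1]? = some p.2.length) &&
    p.2.all (fun a => decide (a < I.1.length)))) || decide (I.1.length = 0)

theorem badB_iff {D : Dat} {I : Inst} :
    badB D I = true ↔ ¬ (IsInst D.2.2.1 I ∧ 0 < I.1.length) := by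
  unfold badB IsInst
  rw [Bool.or_eq_true, Bool.not_eq_true', decide_eq_true_eq, ← Bool.not_eq_true]
  simp only [List.all_eq_true, Bool.and_eq_true, decide_eq_true_eq]
  rw [not_and_or]
  refine or_congr Iff.rfl ?_
  omega

/-- Some substructure with at most `2 * x` elements satisfies the clauses. -/
def EZ (cls : List Cl) (x : ℕ) (I : Inst) : Prop :=
  ∃ c : Set ℕ, c.Nonempty ∧ (∀ a ∈ c, a < I.1.length) ∧ c.ncard ≤ 2 * x ∧ Psi (fc I) c cls

/-- The domain. -/
def dm (I : Inst) : List ℕ := List.range I.1.length

theorem poly_dm : Poly dm := (UPoly.length (by fun_prop)).range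

/-! ### The decision procedure for a fixed bound -/

/-- All lists of length at most `k` with entries in `l`. -/
def tl (l : List ℕ) : ℕ → List (List ℕ)
  | 0 => [[]]
  | k + 1 => [] :: (tl l k).flatMap (fun b => l.map (fun a => a :: b))

theorem mem_tl {l : List ℕ} {k : ℕ} {b : List ℕ} :
    b ∈ tl l k ↔ b.length ≤ k ∧ ∀ a ∈ b, a ∈ l := by
  induction k generalizing b with
  | zero =>
    simp only [tl, List.mem_singleton, Nat.le_zero, List.length_eq_zero_iff]
    constructor
    · rintro rfl
      simp
    · exact fun h => h.1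
  | succ k ih =>
    simp only [tl, List.mem_cons, List.mem_flatMap, List.mem_map]
    constructor
    · rintro (rfl | ⟨b', h1, a, h2, rfl⟩)
      · simp
      · rw [ih] at h1
        simp only [List.length_cons, List.mem_cons, forall_eq_or_imp]
        exact ⟨by omega, h2, h1.2⟩
    · rintro ⟨h1, h2⟩
      cases b with
      | nil => exact Or.inl rfl
      | cons a b =>
        simp only [List.length_cons, List.mem_cons, forall_eq_or_imp] at h1 h2
        exact Or.inr ⟨b, ih.2 ⟨by omega, h2.2⟩, a, h2.1, rfl⟩

theorem poly_tl (k : ℕ) : Poly (fun l : List ℕ => tl l k) := by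
  induction k with
  | zero => exact NPC.Poly.const _
  | succ k ih =>
    simp only [tl]
    fun_prop

/-- The decision procedure for fixed data and a fixed bound. -/
def dE (D : Dat) (x : ℕ) (I : Inst) : Bool :=
  badB D I || (tl (dm I) (2 * x)).any (fun b => !(decide (b = [])) && tst D.2.2.2 I b)

theorem poly_badB {α : Type} [TEnc α] {D : α → Dat} {I : α → Inst} (hD : Poly D) (hI : Poly I) :
    Poly (fun a => badB (D a) (I a)) := by
  unfold badB
  fun_prop

theorem poly_dE (D : Dat) (x : ℕ) : Poly (dE D x) := by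
  unfold dE
  have h1 : Poly (fun I : Inst => badB D I) := poly_badB (by fun_prop) (by fun_prop)
  have h2 : Poly (fun I : Inst => tl (dm I) (2 * x)) := (poly_tl (2 * x)).comp poly_dm
  have h3 : Poly (fun p : Inst × List ℕ => tst D.2.2.2 p.1 p.2) :=
    poly_tst (by fun_prop) (by fun_prop) (by fun_prop)
  fun_prop

theorem ncard_mem_le (b : List ℕ) : {a | a ∈ b}.ncard ≤ b.length := by
  have h1 : {a | a ∈ b} = (b.toFinset : Set ℕ) := by
    ext a
    simp
  rw [h1, Set.ncard_coe_finset]
  exact List.toFinset_card_le b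

theorem dE_iff {D : Dat} {x : ℕ} {I : Inst} :
    dE D x I = true ↔ badB D I = true ∨ EZ D.2.2.2 x I := by
  unfold dE EZ
  rw [Bool.or_eq_true, List.any_eq_true]
  refine or_congr Iff.rfl ?_
  constructor
  · rintro ⟨b, h1, h2⟩
    rw [mem_tl] at h1
    rw [Bool.and_eq_true, Bool.not_eq_true', decide_eq_false_iff_not, tst_iff] at h2
    refine ⟨{a | a ∈ b}, ?_, fun a ha => ?_, (ncard_mem_le b).trans h1.1, h2.2⟩
    · obtain ⟨a, ha⟩ := List.exists_mem_of_ne_nil b h2.1
      exact ⟨a, ha⟩
    · exact List.mem_range.1 (h1.2 a ha)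
  · rintro ⟨c, h1, h2, h3, h4⟩
    have hf : c.Finite := (Set.finite_lt_nat I.1.length).subset h2
    have hcb : {a | a ∈ hf.toFinset.toList} = c := by
      ext a
      simp
    refine ⟨hf.toFinset.toList, ?_, ?_⟩
    · rw [mem_tl]
      refine ⟨?_, fun a ha => ?_⟩
      · rw [Finset.length_toList, ← Set.ncard_eq_toFinset_card c hf]
        exact h3
      · simp only [Finset.mem_toList, Set.Finite.mem_toFinset] at ha
        exact List.mem_range.2 (h2 a ha)
    · rw [Bool.and_eq_true, Bool.not_eq_true', decide_eq_false_iff_not, tst_iff, hcb]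
      refine ⟨fun h => ?_, h4⟩
      obtain ⟨a, ha⟩ := h1
      rw [← hcb, h] at ha
      simp at ha

/-! ### The test with a bit vector -/

/-- The elements of the domain given by a bit vector. -/
def selB (c : List Bool) (I : Inst) : List ℕ := (dm I).filter (fun i => c.getD i false)

/-- The test. -/
def chkE (D : Dat) (x : ℕ) (I : Inst) (c : List Bool) : Bool :=
  badB D I || (!(decide (selB c I = [])) && decide ((selB c I).length ≤ 2 * x) &&
    tst D.2.2.2 I (selB c I))

theorem chkE_iff {D : Dat} {x : ℕ} {I : Inst} {n : ℕ} (hn : I.1.length ≤ n) :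
    (∃ c ∈ allL n, chkE D x I c = true) ↔ badB D I = true ∨ EZ D.2.2.2 x I := by
  unfold chkE EZ
  simp only [Bool.or_eq_true, Bool.and_eq_true, Bool.not_eq_true', decide_eq_false_iff_not,
    decide_eq_true_eq, tst_iff]
  constructor
  · rintro ⟨c, _, h | ⟨⟨h1, h2⟩, h3⟩⟩
    · exact Or.inl h
    · refine Or.inr ⟨{a | a ∈ selB c I}, ?_, fun a ha => ?_, (ncard_mem_le _).trans h2, h3⟩
      · obtain ⟨a, ha⟩ := List.exists_mem_of_ne_nil _ h1
        exact ⟨a, ha⟩
      · exact List.mem_range.1 (List.mem_filter.1 ha).1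
  · rintro (h | ⟨c, h1, h2, h3, h4⟩)
    · refine ⟨List.replicate n false, mem_allL.2 (by simp), Or.inl h⟩
    · classical
      have hf : c.Finite := (Set.finite_lt_nat I.1.length).subset h2
      set v : List Bool := (List.range n).map (fun i => decide (i ∈ c)) with hv
      have hmem : ∀ a, a ∈ selB v I ↔ a ∈ c := by
        intro a
        unfold selB dm
        rw [List.mem_filter, List.mem_range]
        constructor
        · rintro ⟨h5, h6⟩
          rw [hv, List.getD_eq_getElem _ _ (by simp; omega)] at h6
          simpa using h6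
        · intro h5
          have h6 := h2 a h5
          refine ⟨h6, ?_⟩
          rw [hv, List.getD_eq_getElem _ _ (by simp; omega)]
          simpa using h5
      have hset : {a | a ∈ selB v I} = c := Set.ext hmem
      have hnd : (selB v I).Nodup := List.Nodup.filter _ List.nodup_range
      refine ⟨v, mem_allL.2 (by simp [hv]), Or.inr ⟨⟨?_, ?_⟩, ?_⟩⟩
      · intro h
        obtain ⟨a, ha⟩ := h1
        rw [← hmem, h] at ha
        simp at ha
      · have h5 : (selB v I).toFinset = hf.toFinset := by
          ext a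
          simp [hmem]
        rw [← List.toFinset_card_of_nodup hnd, h5, ← Set.ncard_eq_toFinset_card c hf]
        exact h3
      · rw [hset]
        exact h4

/-- The substructures of bounded size suffice. -/
theorem her_small {m : Mach} (hm : m.OK) {x N : ℕ} (hfl : ∀ n, x ≤ n → n < N → m.flag n = false)
    {I : Inst} (hN : I.1.length ≤ N) :
    ¬ HER (tauH m) (.neg (psiF (clsH m))) I ↔
      badB (dat m) I = true ∨ EZ (dat m).2.2.2 x I := by
  rw [her_iff, badB_iff]
  change _ ↔ ¬ (IsInst (tauH m) I ∧ 0 < I.1.length) ∨ EZ (clsH m) x I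
  unfold EZ
  constructor
  · intro h
    by_cases h1 : IsInst (tauH m) I ∧ 0 < I.1.length
    · right
      by_contra hcon
      apply h
      refine ⟨h1.1, h1.2, ?_⟩
      rintro ⟨c, hc1, hc2, hc3⟩
      apply hcon
      have hf : c.Finite := (Set.finite_lt_nat I.1.length).subset hc2
      obtain ⟨n, y, _, _, hfn, h2, h3⟩ := sound hm hf hc1 hc3
      have h4 : c.ncard ≤ I.1.length := by
        have h5 : c ⊆ (Finset.range I.1.length : Set ℕ) := by
          intro a ha
          simpa using hc2 a ha
        have h6 := Set.ncard_le_ncard h5 (Finset.finite_toSet _)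
        rwa [Set.ncard_coe_finset, Finset.card_range] at h6
      have h5 : n < x := by
        by_contra h6
        rw [hfl n (by omega) (by omega)] at hfn
        simp at hfn
      exact ⟨c, hc1, hc2, by omega, hc3⟩
    · exact Or.inl h1
  · rintro (h | ⟨c, h1, h2, _, h3⟩)
    · rintro ⟨h1, h2, _⟩
      exact h ⟨h1, h2⟩
    · rintro ⟨_, _, h4⟩
      exact h4 ⟨c, h1, h2, h3⟩

end Pool.Agent.V8H38.HF
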