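import Pool.Agent.V8H38.HF.Diag

/-!
# A hereditary model checking problem which is `coNP`-intermediate
-/

namespace Pool.Agent.V8H38.HF

open Function Pool.Agent.NPC Pool.Agent.H593R3.FBC
open Pool.Agent.Helper707.Prog (Cmd Exec)
open Pool.Agent.Helper707.Flat (sx code len IsAt sim search prog up_g up_k length_code halting_iff)

section

variable {f : List.Vector ℕ 2 → ℕ} {body : Cmd}

theorem phasesS (hb : ∀ x k : ℕ, Exec body (sx x k 0)
      (sx x (k + 1) (if f (k ::ᵥ x ::ᵥ List.Vector.nil) = 0 then 0 else 1)))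
    (hf : ∀ x, ∃ k, f (k ::ᵥ x ::ᵥ List.Vector.nil) = 0)
    (hG : ∀ x k, f (k ::ᵥ x ::ᵥ List.Vector.nil) = 0 → GS (x + 1) k) (c : Bool) :
    PhasesS (mach (code (prog body) 0)).flag c := by
  have key : ∀ j : ℕ, ∃ x, j ≤ x + 1 ∧
      (mach (code (prog body) 0)).run (x + 1) = ((j + 1) % 2, sx x 0 0) := by
    intro j
    induction j with
    | zero =>
      obtain ⟨H, N, _, _, _, h⟩ := phase hb hf (T := 0) (x := 0) (b := 0) (by omega) (by
        refine Prod.ext rfl ?_
        funext k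
        simp [Mach.run, sx])
      refine ⟨0 + H, by omega, h⟩
    | succ j ih =>
      obtain ⟨x, hx, hr⟩ := ih
      obtain ⟨H, N, _, _, _, h⟩ := phase hb hf (Nat.mod_lt _ (by omega)) hr
      refine ⟨x + 1 + H, by omega, ?_⟩
      rw [h]
      congr 1
      omega
  intro k
  obtain ⟨j, hj, hjc⟩ : ∃ j, k ≤ j ∧ ((j + 1) % 2 == 1) = c := by
    cases c
    · refine ⟨2 * k + 1, by omega, ?_⟩
      have : (2 * k + 1 + 1) % 2 = 0 := by omega
      rw [this]; rfl
    · refine ⟨2 * k, by omega, ?_⟩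
      have : (2 * k + 1) % 2 = 1 := by omega
      rw [this]; rfl
  obtain ⟨x, hx, hr⟩ := key j
  obtain ⟨H, N, h1, h2, h3, _⟩ := phase hb hf (Nat.mod_lt _ (by omega)) hr
  refine ⟨x + 1, N, by omega, hG x N h1, fun n hn hnN => ?_⟩
  have h4 := h3 (n - (x + 1)) (by omega)
  rw [show x + 1 + (n - (x + 1)) = n by omega] at h4
  rw [h4, hjc]

end

theorem exists_machineS (hP : PNeNP) :
    ∃ m : Mach, m.OK ∧ PhasesS m.flag true ∧ PhasesS m.flag false := by
  classical
  have h1 : Primrec₂ (fun k x : ℕ => if GS (x + 1) k then 0 else 1) := by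
    have h2 : PrimrecPred (fun p : ℕ × ℕ => GS (p.2 + 1) p.1) :=
      prim_GS.comp (Primrec.succ.comp Primrec.snd) Primrec.fst
    exact Primrec.ite h2 (Primrec.const 0) (Primrec.const 1)
  set F : List.Vector ℕ 2 → ℕ := fun v => if GS (v.tail.head + 1) v.head then 0 else 1 with hF
  have h3 : Nat.Primrec' F := Nat.Primrec'.prim_iff₂.2 h1
  obtain ⟨body, hb⟩ := search h3
  have hiff : ∀ x k : ℕ, F (k ::ᵥ x ::ᵥ List.Vector.nil) = 0 ↔ GS (x + 1) k := by
    intro x k
    simp [hF]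
  have hex : ∀ x, ∃ k, F (k ::ᵥ x ::ᵥ List.Vector.nil) = 0 := by
    intro x
    obtain ⟨N, hN⟩ := exists_GS hP (x + 1)
    exact ⟨N, (hiff x N).2 hN⟩
  exact ⟨_, mach_ok (code (prog body) 0),
    phasesS hb hex (fun x k h => (hiff x k).1 h) true,
    phasesS hb hex (fun x k h => (hiff x k).1 h) false⟩

/-- If `P ≠ NP` then some hereditary model checking problem is `coNP`-intermediate. -/
theorem exists_intermediate (hP : ∃ L : Set (List Bool), InNP L ∧ ¬ InP L) :
    ∃ (τ : List ℕ) (φ : FO 0), (∀ a ∈ τ, 1 ≤ a ∧ a ≤ 3) ∧ φ.Over τ ∧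
      CoNPIntermediate (HER τ φ) := by
  obtain ⟨m, hm, h1, h2⟩ := exists_machineS hP
  refine ⟨tauH m, .neg (psiF (clsH m)), fun a ha => ?_, ?_, inCoNPP_PH m, not_inPH hm h1,
    not_hardPH hm h2⟩
  · obtain ⟨i, hi⟩ := List.mem_iff_getElem?.1 ha
    exact tau_bd hi
  · change (psiF (clsH m)).Over (tauH m)
    exact over_psi _ (okH hm)

theorem InP.compl {L : Set (List Bool)} (h : InP L) : InP Lᶜ := by
  obtain ⟨V, hV, hV'⟩ := h
  have h1 : PolyTime (fun y : List Bool => [!(decide (y = [true]))]) := by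
    refine polyTime_of_poly (g := fun y => !(decide (y = [true]))) ?_
    fun_prop
  refine ⟨_, H642R2.TMSim.polyTime_comp h1 hV, fun x => ?_⟩
  rw [Set.mem_compl_iff, hV' x]
  simp

/-- If some decision problem is `coNP`-intermediate then `P ≠ NP`. -/
theorem pneNP_of {α : Type} [TEnc α] {P : α → Prop} (h : CoNPIntermediate P) :
    ∃ L : Set (List Bool), InNP L ∧ ¬ InP L := by
  refine ⟨(lang P)ᶜ, h.1, fun h1 => h.2.1 ?_⟩
  have h2 := InP.compl h1
  rwa [compl_compl] at h2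

end Pool.Agent.V8H38.HF
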