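import Pool.Agent.V8H38.HF.Conf

/-!
# The instances given by formulas
-/

namespace Pool.Agent.V8H38.HF

open Function Pool.Agent.NPC Pool.Agent.H593R3.FBC

/-- the numbers up to `nn p` -/
def rg (p : F3 × List Unit) : List ℕ := List.range (nn p + 1)

theorem poly_rg : Poly rg := (uPoly_nn.add (UPoly.const 1)).range

/-- unary numbers -/
def un (p : F3 × List Unit) : List Unit := List.replicate (nn p + 1) ()

theorem poly_un : Poly un := uPoly_nn.add (UPoly.const 1)

/-- the variables -/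
def vr (p : F3 × List Unit) : List ℕ := List.range (3 * p.1.length)

theorem poly_vr : Poly vr := ((UPoly.const 3).mul (UPoly.length (by fun_prop))).range

/-- The structure attached to a formula. -/
def gen (D : Dat) (p : F3 × List Unit) : Inst :=
  (List.replicate (2 * (nn p + 1)) (),
    [(0, [0]), (1, [nn p])] ++
    ((rg p).flatMap (fun i => (rg p).flatMap (fun j => if j = i + 1 then [(2, [i, j])] else [])) ++
    ((rg p).flatMap (fun i => (rg p).flatMap (fun j => if i < j then [(3, [i, j])] else [])) ++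
    ((rg p).map (fun i => (4, [i, nn p + 1 + i])) ++
    (p.1.map (fun c => (5, [lt c.1, lt c.2.1, lt c.2.2])) ++
    ((vr p).map (fun v => (6, [2 * v, 2 * v + 1])) ++
    ((rg p).map (fun i => (7, [i])) ++
    ((rg p).map (fun i => (8 + (conf D (un p) i).2.1, [i])) ++
    (rg p).flatMap (fun i => (conf D (un p) i).2.2.zipIdx.map
      (fun q => (8 + D.1.length + q.2, [i, q.1]))))))))))) 

theorem poly_gen : Poly (fun x : Dat × F3 × List Unit => gen x.1 x.2) := by
  unfold gen lt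
  have h1 : Poly (fun x : Dat × F3 × List Unit => List.replicate (2 * (nn x.2 + 1)) ()) :=
    (((UPoly.const 2).mul (uPoly_nn.add (UPoly.const 1))).comp
      (f := fun x : Dat × F3 × List Unit => x.2) (by fun_prop))
  have h2 := poly_rg
  have h3 := poly_un
  have h4 := poly_vr
  have h5 := uPoly_nn.toPoly
  fun_prop

theorem mem_gen {m : Mach} (hm : m.OK) {p : F3 × List Unit} {i : ℕ} {l : List ℕ} :
    (i, l) ∈ (gen (dat m) p).2 ↔
    (i = 0 ∧ l = [0]) ∨ (i = 1 ∧ l = [nn p]) ∨ (∃ j < nn p, i = 2 ∧ l = [j, j + 1]) ∨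
    (∃ a b, a < b ∧ b ≤ nn p ∧ i = 3 ∧ l = [a, b]) ∨
    (∃ j ≤ nn p, i = 4 ∧ l = [j, nn p + 1 + j]) ∨
    (∃ c ∈ p.1, i = 5 ∧ l = [lt c.1, lt c.2.1, lt c.2.2]) ∨
    (∃ v < 3 * p.1.length, i = 6 ∧ l = [2 * v, 2 * v + 1]) ∨
    (∃ j ≤ nn p, i = 7 ∧ l = [j]) ∨
    (∃ j ≤ nn p, i = 8 + m.lab j ∧ l = [j]) ∨
    (∃ j ≤ nn p, ∃ k < m.nK, i = 8 + m.nQ + k ∧ l = [j, m.cnt j k]) := by
  unfold gen rg vr
  simp only [List.mem_append, List.mem_cons, Prod.mk.injEq, List.not_mem_nil, or_false,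
    List.mem_map, List.mem_range, List.mem_flatMap]
  have e2 : (∃ a < nn p + 1, ∃ b < nn p + 1,
      (i, l) ∈ (if b = a + 1 then [(2, [a, b])] else [] : List (ℕ × List ℕ))) ↔
      ∃ j < nn p, i = 2 ∧ l = [j, j + 1] := by
    constructor
    · rintro ⟨a, ha, b, hb, h⟩
      split_ifs at h with h1
      · simp only [List.mem_singleton, Prod.mk.injEq] at h
        subst h1
        exact ⟨a, by omega, h⟩
      · simp at h
    · rintro ⟨j, hj, h⟩
      refine ⟨j, by omega, j + 1, by omega, ?_⟩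
      simp [h]
  have e3 : (∃ a < nn p + 1, ∃ b < nn p + 1,
      (i, l) ∈ (if a < b then [(3, [a, b])] else [] : List (ℕ × List ℕ))) ↔
      ∃ a b, a < b ∧ b ≤ nn p ∧ i = 3 ∧ l = [a, b] := by
    constructor
    · rintro ⟨a, ha, b, hb, h⟩
      split_ifs at h with h1
      · simp only [List.mem_singleton, Prod.mk.injEq] at h
        exact ⟨a, b, h1, by omega, h⟩
      · simp at h
    · rintro ⟨a, b, h1, h2, h⟩
      refine ⟨a, by omega, b, by omega, ?_⟩
      simp [h, h1]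
  have e8 : (∃ j < nn p + 1, 8 + (conf (dat m) (un p) j).2.1 = i ∧ [j] = l) ↔
      ∃ j ≤ nn p, i = 8 + m.lab j ∧ l = [j] := by
    refine exists_congr fun j => ?_
    constructor
    · rintro ⟨hj, h, h'⟩
      rw [conf_eq hm (by simp [un]; omega)] at h
      exact ⟨by omega, h.symm, h'.symm⟩
    · rintro ⟨hj, h, h'⟩
      rw [conf_eq hm (by simp [un]; omega)]
      exact ⟨by omega, h.symm, h'.symm⟩
  have e9 : (∃ j < nn p + 1, ∃ q ∈ (conf (dat m) (un p) j).2.2.zipIdx,
      8 + (dat m).1.length + q.2 = i ∧ [j, q.1] = l) ↔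
      ∃ j ≤ nn p, ∃ k < m.nK, i = 8 + m.nQ + k ∧ l = [j, m.cnt j k] := by
    have hl : (dat m).1.length = m.nQ := by simp [dat, tbl]
    refine exists_congr fun j => ?_
    constructor
    · rintro ⟨hj, ⟨a, k⟩, hq, h, h'⟩
      rw [conf_eq hm (by simp [un]; omega), List.mem_zipIdx_iff_getElem?] at hq
      simp only at hq h h'
      have hk : k < m.nK := by
        by_contra hcon
        rw [List.getElem?_eq_none (by simpa using hcon)] at hq
        simp at hq
      rw [List.getElem?_eq_getElem (by simpa using hk)] at hq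
      simp only [List.getElem_map, List.getElem_range, Option.some.injEq] at hq
      refine ⟨by omega, k, hk, by omega, ?_⟩
      rw [← h', hq]
    · rintro ⟨hj, k, hk, h, h'⟩
      refine ⟨by omega, (m.cnt j k, k), ?_, by omega, h'.symm⟩
      rw [conf_eq hm (by simp [un]; omega), List.mem_zipIdx_iff_getElem?]
      simp only
      rw [List.getElem?_eq_getElem (by simpa using hk)]
      simp
  rw [e2, e3, e8, e9]
  constructor
  · rintro ((h | h) | h | h | ⟨j, hj, h, h'⟩ | ⟨c, hc, h, h'⟩ | ⟨v, hv, h, h'⟩ |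
      ⟨j, hj, h, h'⟩ | h | h)
    · exact Or.inl h
    · exact Or.inr (Or.inl h)
    · exact Or.inr (Or.inr (Or.inl h))
    · exact Or.inr (Or.inr (Or.inr (Or.inl h)))
    · exact Or.inr (Or.inr (Or.inr (Or.inr (Or.inl ⟨j, by omega, h.symm, h'.symm⟩))))
    · exact Or.inr (Or.inr (Or.inr (Or.inr (Or.inr (Or.inl ⟨c, hc, h.symm, h'.symm⟩)))))
    · exact Or.inr (Or.inr (Or.inr (Or.inr (Or.inr (Or.inr (Or.inl ⟨v, hv, h.symm, h'.symm⟩))))))
    · exact Or.inr (Or.inr (Or.inr (Or.inr (Or.inr (Or.inr (Or.inr (Or.inl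
        ⟨j, by omega, h.symm, h'.symm⟩)))))))
    · exact Or.inr (Or.inr (Or.inr (Or.inr (Or.inr (Or.inr (Or.inr (Or.inr (Or.inl h))))))))
    · exact Or.inr (Or.inr (Or.inr (Or.inr (Or.inr (Or.inr (Or.inr (Or.inr (Or.inr h))))))))
  · rintro (h | h | h | h | ⟨j, hj, h, h'⟩ | ⟨c, hc, h, h'⟩ | ⟨v, hv, h, h'⟩ |
      ⟨j, hj, h, h'⟩ | h | h)
    · exact Or.inl (Or.inl h)
    · exact Or.inl (Or.inr h)
    · exact Or.inr (Or.inl h)
    · exact Or.inr (Or.inr (Or.inl h))
    · exact Or.inr (Or.inr (Or.inr (Or.inl ⟨j, by omega, h.symm, h'.symm⟩)))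
    · exact Or.inr (Or.inr (Or.inr (Or.inr (Or.inl ⟨c, hc, h.symm, h'.symm⟩))))
    · exact Or.inr (Or.inr (Or.inr (Or.inr (Or.inr (Or.inl ⟨v, hv, h.symm, h'.symm⟩)))))
    · exact Or.inr (Or.inr (Or.inr (Or.inr (Or.inr (Or.inr (Or.inl
        ⟨j, by omega, h.symm, h'.symm⟩))))))
    · exact Or.inr (Or.inr (Or.inr (Or.inr (Or.inr (Or.inr (Or.inr (Or.inl h)))))))
    · exact Or.inr (Or.inr (Or.inr (Or.inr (Or.inr (Or.inr (Or.inr (Or.inr h)))))))

end Pool.Agent.V8H38.HF
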