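import Pool.Agent.V8H38.HF.Gen

/-!
# The relations of the instances given by formulas
-/

namespace Pool.Agent.V8H38.HF

open Function Pool.Agent.NPC Pool.Agent.H593R3.FBC

variable {m : Mach} {p : F3 × List Unit}

theorem isInst_gen (hm : m.OK) (hb : Bounded3 p.1) : IsInst (tauH m) (gen (dat m) p) := by
  rintro ⟨i, l⟩ h
  have hl : (gen (dat m) p).1.length = 2 * (nn p + 1) := by simp [gen]
  rw [hl]
  rcases (mem_gen hm).1 h with ⟨rfl, rfl⟩ | ⟨rfl, rfl⟩ | ⟨j, hj, rfl, rfl⟩ |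
    ⟨a, b, hab, hb', rfl, rfl⟩ | ⟨j, hj, rfl, rfl⟩ | ⟨c, hc, rfl, rfl⟩ | ⟨v, hv, rfl, rfl⟩ |
    ⟨j, hj, rfl, rfl⟩ | ⟨j, hj, rfl, rfl⟩ | ⟨j, hj, k, hk, rfl, rfl⟩
  · refine ⟨by simp [tauH], ?_⟩
    simp only [List.mem_cons, List.not_mem_nil, or_false, forall_eq]
    omega
  · refine ⟨by simp [tauH], ?_⟩
    simp only [List.mem_cons, List.not_mem_nil, or_false, forall_eq]
    omega
  · refine ⟨by simp [tauH], ?_⟩
    simp only [List.mem_cons, List.not_mem_nil, or_false, forall_eq_or_imp, forall_eq]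
    omega
  · refine ⟨by simp [tauH], ?_⟩
    simp only [List.mem_cons, List.not_mem_nil, or_false, forall_eq_or_imp, forall_eq]
    omega
  · refine ⟨by simp [tauH], ?_⟩
    simp only [List.mem_cons, List.not_mem_nil, or_false, forall_eq_or_imp, forall_eq]
    omega
  · refine ⟨by simp [tauH], ?_⟩
    obtain ⟨h1, h2, h3⟩ := lt_lt hb hc
    simp only [List.mem_cons, List.not_mem_nil, or_false, forall_eq_or_imp, forall_eq]
    omega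
  · refine ⟨by simp [tauH], ?_⟩
    have : nn p = 6 * p.1.length + p.2.length := rfl
    simp only [List.mem_cons, List.not_mem_nil, or_false, forall_eq_or_imp, forall_eq]
    omega
  · refine ⟨by simp [tauH], ?_⟩
    simp only [List.mem_cons, List.not_mem_nil, or_false, forall_eq]
    omega
  · refine ⟨tau_q (m.lab_lt hm j), ?_⟩
    simp only [List.mem_cons, List.not_mem_nil, or_false, forall_eq]
    omega
  · refine ⟨tau_k hk, ?_⟩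
    have := m.cnt_le j k
    simp only [List.mem_cons, List.not_mem_nil, or_false, forall_eq_or_imp, forall_eq]
    omega

/-- The relations. -/
structure RelG (m : Mach) (p : F3 × List Unit) (R : Rels ℕ) : Prop where
  r0 : ∀ a, R 0 [a] ↔ a = 0
  r1 : ∀ a, R 1 [a] ↔ a = nn p
  r2 : ∀ a b, R 2 [a, b] ↔ a < nn p ∧ b = a + 1
  r3 : ∀ a b, R 3 [a, b] ↔ a < b ∧ b ≤ nn p
  r4 : ∀ a b, R 4 [a, b] ↔ a ≤ nn p ∧ b = nn p + 1 + a
  r5 : ∀ a b d, R 5 [a, b, d] ↔ ∃ c ∈ p.1, a = lt c.1 ∧ b = lt c.2.1 ∧ d = lt c.2.2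
  r6 : ∀ a b, R 6 [a, b] ↔ ∃ v < 3 * p.1.length, a = 2 * v ∧ b = 2 * v + 1
  r7 : ∀ a, R 7 [a] ↔ a ≤ nn p
  rq : ∀ q < m.nQ, ∀ a, R (8 + q) [a] ↔ a ≤ nn p ∧ q = m.lab a
  rk : ∀ k < m.nK, ∀ a b, R (8 + m.nQ + k) [a, b] ↔ a ≤ nn p ∧ b = m.cnt a k

theorem relG (hm : m.OK) : RelG m p (fc (gen (dat m) p)) := by
  have key : ∀ i l, fc (gen (dat m) p) i l ↔ _ := fun i l => mem_gen hm (p := p)
  constructor
  · intro a
    rw [key]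
    constructor
    · rintro (⟨h, h'⟩ | ⟨h, h'⟩ | ⟨j, hj, h, h'⟩ |
        ⟨a, b, hab, hb', h, h'⟩ | ⟨j, hj, h, h'⟩ | ⟨c, hc, h, h'⟩ | ⟨v, hv, h, h'⟩ |
        ⟨j, hj, h, h'⟩ | ⟨j, hj, h, h'⟩ | ⟨j, hj, k, hk, h, h'⟩) <;>
      first | omega | simpa using h'
    · rintro rfl
      exact Or.inl ⟨rfl, rfl⟩
  · intro a
    rw [key]
    constructor
    · rintro (⟨h, h'⟩ | ⟨h, h'⟩ | ⟨j, hj, h, h'⟩ |
        ⟨a, b, hab, hb', h, h'⟩ | ⟨j, hj, h, h'⟩ | ⟨c, hc, h, h'⟩ | ⟨v, hv, h, h'⟩ |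
        ⟨j, hj, h, h'⟩ | ⟨j, hj, h, h'⟩ | ⟨j, hj, k, hk, h, h'⟩) <;>
      first | omega | simpa using h'
    · rintro rfl
      exact Or.inr (Or.inl ⟨rfl, rfl⟩)
  · intro a b
    rw [key]
    constructor
    · rintro (⟨h, h'⟩ | ⟨h, h'⟩ | ⟨j, hj, h, h'⟩ |
        ⟨a, b, hab, hb', h, h'⟩ | ⟨j, hj, h, h'⟩ | ⟨c, hc, h, h'⟩ | ⟨v, hv, h, h'⟩ |
        ⟨j, hj, h, h'⟩ | ⟨j, hj, h, h'⟩ | ⟨j, hj, k, hk, h, h'⟩) <;>
      first
      | omega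
      | (simp only [List.cons.injEq, and_true] at h'
         obtain ⟨rfl, rfl⟩ := h'
         exact ⟨hj, rfl⟩)
    · rintro ⟨h, rfl⟩
      exact Or.inr (Or.inr (Or.inl ⟨a, h, rfl, rfl⟩))
  · intro a b
    rw [key]
    constructor
    · rintro (⟨h, h'⟩ | ⟨h, h'⟩ | ⟨j, hj, h, h'⟩ |
        ⟨a, b, hab, hb', h, h'⟩ | ⟨j, hj, h, h'⟩ | ⟨c, hc, h, h'⟩ | ⟨v, hv, h, h'⟩ |
        ⟨j, hj, h, h'⟩ | ⟨j, hj, h, h'⟩ | ⟨j, hj, k, hk, h, h'⟩) <;>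
      first
      | omega
      | (simp only [List.cons.injEq, and_true] at h'
         obtain ⟨rfl, rfl⟩ := h'
         exact ⟨hab, hb'⟩)
    · rintro ⟨h, h2⟩
      exact Or.inr (Or.inr (Or.inr (Or.inl ⟨a, b, h, h2, rfl, rfl⟩)))
  · intro a b
    rw [key]
    constructor
    · rintro (⟨h, h'⟩ | ⟨h, h'⟩ | ⟨j, hj, h, h'⟩ |
        ⟨a, b, hab, hb', h, h'⟩ | ⟨j, hj, h, h'⟩ | ⟨c, hc, h, h'⟩ | ⟨v, hv, h, h'⟩ |
        ⟨j, hj, h, h'⟩ | ⟨j, hj, h, h'⟩ | ⟨j, hj, k, hk, h, h'⟩) <;>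
      first
      | omega
      | (simp only [List.cons.injEq, and_true] at h'
         obtain ⟨rfl, rfl⟩ := h'
         exact ⟨hj, rfl⟩)
    · rintro ⟨h, rfl⟩
      exact Or.inr (Or.inr (Or.inr (Or.inr (Or.inl ⟨a, h, rfl, rfl⟩))))
  · intro a b d
    rw [key]
    constructor
    · rintro (⟨h, h'⟩ | ⟨h, h'⟩ | ⟨j, hj, h, h'⟩ |
        ⟨a, b, hab, hb', h, h'⟩ | ⟨j, hj, h, h'⟩ | ⟨c, hc, h, h'⟩ | ⟨v, hv, h, h'⟩ |
        ⟨j, hj, h, h'⟩ | ⟨j, hj, h, h'⟩ | ⟨j, hj, k, hk, h, h'⟩) <;>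
      first
      | omega
      | (simp only [List.cons.injEq, and_true] at h'
         exact ⟨c, hc, h'⟩)
    · rintro ⟨c, hc, rfl, rfl, rfl⟩
      exact Or.inr (Or.inr (Or.inr (Or.inr (Or.inr (Or.inl ⟨c, hc, rfl, rfl⟩)))))
  · intro a b
    rw [key]
    constructor
    · rintro (⟨h, h'⟩ | ⟨h, h'⟩ | ⟨j, hj, h, h'⟩ |
        ⟨a, b, hab, hb', h, h'⟩ | ⟨j, hj, h, h'⟩ | ⟨c, hc, h, h'⟩ | ⟨v, hv, h, h'⟩ |
        ⟨j, hj, h, h'⟩ | ⟨j, hj, h, h'⟩ | ⟨j, hj, k, hk, h, h'⟩) <;>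
      first
      | omega
      | (simp only [List.cons.injEq, and_true] at h'
         exact ⟨v, hv, h'⟩)
    · rintro ⟨v, hv, rfl, rfl⟩
      exact Or.inr (Or.inr (Or.inr (Or.inr (Or.inr (Or.inr (Or.inl ⟨v, hv, rfl, rfl⟩))))))
  · intro a
    rw [key]
    constructor
    · rintro (⟨h, h'⟩ | ⟨h, h'⟩ | ⟨j, hj, h, h'⟩ |
        ⟨a, b, hab, hb', h, h'⟩ | ⟨j, hj, h, h'⟩ | ⟨c, hc, h, h'⟩ | ⟨v, hv, h, h'⟩ |
        ⟨j, hj, h, h'⟩ | ⟨j, hj, h, h'⟩ | ⟨j, hj, k, hk, h, h'⟩) <;>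
      first
      | omega
      | (simp only [List.cons.injEq, and_true] at h'
         subst h'
         exact hj)
    · intro h
      exact Or.inr (Or.inr (Or.inr (Or.inr (Or.inr (Or.inr (Or.inr (Or.inl ⟨a, h, rfl, rfl⟩)))))))
  · intro q hq a
    rw [key]
    constructor
    · rintro (⟨h, h'⟩ | ⟨h, h'⟩ | ⟨j, hj, h, h'⟩ |
        ⟨a, b, hab, hb', h, h'⟩ | ⟨j, hj, h, h'⟩ | ⟨c, hc, h, h'⟩ | ⟨v, hv, h, h'⟩ |
        ⟨j, hj, h, h'⟩ | ⟨j, hj, h, h'⟩ | ⟨j, hj, k, hk, h, h'⟩) <;>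
      first
      | omega
      | (simp only [List.cons.injEq, and_true] at h'
         subst h'
         exact ⟨hj, by omega⟩)
    · rintro ⟨h, rfl⟩
      exact Or.inr (Or.inr (Or.inr (Or.inr (Or.inr (Or.inr (Or.inr (Or.inr (Or.inl
        ⟨a, h, rfl, rfl⟩))))))))
  · intro k' hk' a b
    rw [key]
    constructor
    · rintro (⟨h, h'⟩ | ⟨h, h'⟩ | ⟨j, hj, h, h'⟩ |
        ⟨a, b, hab, hb', h, h'⟩ | ⟨j, hj, h, h'⟩ | ⟨c, hc, h, h'⟩ | ⟨v, hv, h, h'⟩ |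
        ⟨j, hj, h, h'⟩ | ⟨j, hj, h, h'⟩ | ⟨j, hj, k, hk, h, h'⟩)
      · omega
      · omega
      · omega
      · omega
      · omega
      · omega
      · omega
      · omega
      · simp at h'
      · simp only [List.cons.injEq, and_true] at h'
        obtain ⟨rfl, rfl⟩ := h'
        obtain rfl : k' = k := by omega
        exact ⟨hj, rfl⟩
    · rintro ⟨h, rfl⟩
      exact Or.inr (Or.inr (Or.inr (Or.inr (Or.inr (Or.inr (Or.inr (Or.inr (Or.inr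
        ⟨a, h, k', hk', rfl, rfl⟩))))))))

end Pool.Agent.V8H38.HF
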