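import Pool.Agent.V8H38.HF.Gen2

/-!
# The instances given by formulas: correctness
-/

namespace Pool.Agent.V8H38.HF

open Function Pool.Agent.NPC Pool.Agent.H593R3.FBC

variable {m : Mach} {p : F3 × List Unit} {R : Rels ℕ}

theorem psiI (hm : m.OK) (hR : RelG m p R) (c : Set ℕ) {q : ℕ} (hq : q < m.nQ) :
    ∀ cl ∈ clsI m.nQ m.nK q (m.ins q), ClH R c cl := by
  have hok := hm.ins q hq
  have e1 : ∀ i, m.lab (i + 1) = (m.step i (m.run i)).1 := fun i => rfl
  have e2 : ∀ i k, m.cnt (i + 1) k = (m.step i (m.run i)).2 k := fun i k => rfl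
  have e3 : ∀ i, (m.run i).1 = m.lab i := fun i => rfl
  have e4 : ∀ i, (m.run i).2 = m.cnt i := fun i => rfl
  unfold Mach.step at e1 e2
  simp only [e3, e4] at e1 e2
  have hkeep : ∀ s : ℕ → Bool, (∀ i, q = m.lab i → ∀ k < m.nK, s k = true →
      m.cnt (i + 1) k = m.cnt i k) → ∀ cl ∈ keep m.nQ m.nK q s, ClH R c cl := by
    intro s hs cl hcl
    unfold keep at hcl
    simp only [List.mem_map, List.mem_filter, List.mem_range] at hcl
    obtain ⟨k, ⟨hk, hsk⟩, rfl⟩ := hcl
    rw [m_t7]
    intro x _ y _ v _ h1 h2 h3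
    rw [hR.rq q hq] at h1
    rw [hR.r2] at h2
    rw [hR.rk k hk] at h3 ⊢
    obtain ⟨h4, rfl⟩ := h2
    refine ⟨by omega, ?_⟩
    rw [hs x h1.2 k hk hsk]
    exact h3.2
  cases hins : m.ins q with
  | inc k q' =>
    rw [hins] at hok
    intro cl hcl
    simp only [clsI] at hcl
    rcases List.mem_append.1 hcl with hcl | hcl
    · simp only [List.mem_cons, List.not_mem_nil, or_false] at hcl
      rcases hcl with rfl | rfl
      · rw [m_t1]
        intro x _ y _ h1 h2
        rw [hR.rq q hq] at h1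
        rw [hR.r2] at h2
        rw [hR.rq q' hok.2]
        obtain ⟨h4, rfl⟩ := h2
        refine ⟨by omega, ?_⟩
        rw [e1, ← h1.2, hins]
      · rw [m_t2]
        intro x _ y _ v _ w _ h1 h2 h3 h4
        rw [hR.rq q hq] at h1
        rw [hR.r2] at h2 h4
        rw [hR.rk k hok.1] at h3 ⊢
        obtain ⟨h5, rfl⟩ := h2
        refine ⟨by omega, ?_⟩
        rw [e2, ← h1.2, hins]
        simp only [update_self]
        rw [← h3.2]
        exact h4.2
    · refine hkeep _ (fun i hi k' _ hk' => ?_) cl hcl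
      rw [e2, ← hi, hins]
      simp only [decide_eq_true_eq] at hk'
      simp only
      rw [update_of_ne hk']
  | dec k q' q'' =>
    rw [hins] at hok
    intro cl hcl
    simp only [clsI] at hcl
    rcases List.mem_append.1 hcl with hcl | hcl
    · simp only [List.mem_cons, List.not_mem_nil, or_false] at hcl
      rcases hcl with rfl | rfl | rfl | rfl
      · rw [m_t3]
        intro x _ y _ v _ h1 h2 h3 h4
        rw [hR.rq q hq] at h1
        rw [hR.r2] at h2
        rw [hR.r0] at h4
        rw [hR.rk k hok.1] at h3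
        rw [hR.rq q'' hok.2.2]
        obtain ⟨h5, rfl⟩ := h2
        refine ⟨by omega, ?_⟩
        rw [e1, ← h1.2, hins]
        simp only
        rw [if_pos (by omega)]
      · rw [m_t4]
        intro x _ y _ v _ h1 h2 h3 h4
        rw [hR.rq q hq] at h1
        rw [hR.r2] at h2
        rw [hR.r0] at h4
        rw [hR.rk k hok.1] at h3 ⊢
        obtain ⟨h5, rfl⟩ := h2
        refine ⟨by omega, ?_⟩
        rw [e2, ← h1.2, hins]
        simp only
        rw [if_pos (by omega)]
        exact h3.2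
      · rw [m_t5]
        intro x _ y _ v _ w _ h1 h2 h3 h4
        rw [hR.rq q hq] at h1
        rw [hR.r2] at h2 h4
        rw [hR.rk k hok.1] at h3
        rw [hR.rq q' hok.2.1]
        obtain ⟨h5, rfl⟩ := h2
        refine ⟨by omega, ?_⟩
        rw [e1, ← h1.2, hins]
        simp only
        rw [if_neg (by omega)]
      · rw [m_t6]
        intro x _ y _ v _ w _ h1 h2 h3 h4
        rw [hR.rq q hq] at h1
        rw [hR.r2] at h2 h4
        rw [hR.rk k hok.1] at h3 ⊢
        obtain ⟨h5, rfl⟩ := h2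
        refine ⟨by omega, ?_⟩
        rw [e2, ← h1.2, hins]
        simp only
        rw [if_neg (by omega)]
        simp only [update_self]
        omega
    · refine hkeep _ (fun i hi k' _ hk' => ?_) cl hcl
      rw [e2, ← hi, hins]
      simp only [decide_eq_true_eq] at hk'
      simp only
      split_ifs
      · rfl
      · simp only
        rw [update_of_ne hk']
  | jmp q' =>
    rw [hins] at hok
    intro cl hcl
    simp only [clsI] at hcl
    rcases List.mem_append.1 hcl with hcl | hcl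
    · simp only [List.mem_cons, List.not_mem_nil, or_false] at hcl
      subst hcl
      rw [m_t1]
      intro x _ y _ h1 h2
      rw [hR.rq q hq] at h1
      rw [hR.r2] at h2
      rw [hR.rq q' hok]
      obtain ⟨h4, rfl⟩ := h2
      refine ⟨by omega, ?_⟩
      rw [e1, ← h1.2, hins]
    · refine hkeep _ (fun i hi k' _ hk' => ?_) cl hcl
      rw [e2, ← hi, hins]
  | rst q' =>
    rw [hins] at hok
    intro cl hcl
    simp only [clsI] at hcl
    rcases List.mem_append.1 hcl with hcl | hcl
    · simp only [List.mem_cons, List.not_mem_nil, or_false] at hcl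
      rcases hcl with rfl | rfl
      · rw [m_t1]
        intro x _ y _ h1 h2
        rw [hR.rq q hq] at h1
        rw [hR.r2] at h2
        rw [hR.rq q' hok]
        obtain ⟨h4, rfl⟩ := h2
        refine ⟨by omega, ?_⟩
        rw [e1, ← h1.2, hins]
      · rw [m_t8]
        intro x _ y _ h1 h2
        rw [hR.rq q hq] at h1
        rw [hR.r2] at h2
        have h3 := hR.rk 0 hm.hK y x
        rw [add_zero] at h3
        rw [h3]
        obtain ⟨h4, rfl⟩ := h2
        refine ⟨by omega, ?_⟩
        rw [e2, ← h1.2, hins]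
        simp only
        rw [if_pos trivial]
    · simp only [List.mem_map, List.mem_filter, List.mem_range, decide_eq_true_eq] at hcl
      obtain ⟨k, ⟨hk, hk0⟩, rfl⟩ := hcl
      rw [m_t9]
      intro x _ y _ v _ h1 h2 h3
      rw [hR.rq q hq] at h1
      rw [hR.r2] at h2
      rw [hR.r0] at h3
      rw [hR.rk k hk]
      obtain ⟨h4, rfl⟩ := h2
      refine ⟨by omega, ?_⟩
      rw [e2, ← h1.2, hins]
      simp only
      rw [if_neg hk0]
      exact h3

theorem psiU (hm : m.OK) (hR : RelG m p R) (c : Set ℕ) (hfl : m.flag (nn p) = true) :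
    ∀ cl ∈ clsU m.nQ m.nK m.act, ClH R c cl := by
  intro cl hcl
  simp only [clsU, List.mem_cons, List.mem_append, List.mem_map, List.mem_range,
    List.mem_flatMap, List.mem_filter] at hcl
  rcases hcl with rfl | rfl | ⟨k, hk, rfl⟩ | ⟨k, hk, rfl⟩ | ⟨q, hq, q', ⟨hq', hne⟩, rfl⟩
  · rw [m_q0]
    intro x _ h1
    rw [hR.r0] at h1
    have h2 := hR.rq 0 hm.hQ x
    rw [add_zero] at h2
    rw [h2, h1]
    exact ⟨Nat.zero_le _, rfl⟩
  · intro x₄ h4 x₃ h3 x₂ h2 x₁ h1
    refine ⟨x₁, h1, ?_⟩
    by_cases hx : x₁ = nn p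
    · refine ⟨ps (8 + m.lab x₁) [1], ?_, ?_⟩
      · refine List.mem_cons_of_mem _ (List.mem_map.2 ⟨m.lab x₁, List.mem_filter.2
          ⟨List.mem_range.2 (m.lab_lt hm _), ?_⟩, rfl⟩)
        rw [hx]
        exact hfl
      · rw [litH_ps]
        change R (8 + m.lab x₁) [x₁]
        rw [hR.rq _ (m.lab_lt hm _)]
        exact ⟨by omega, rfl⟩
    · refine ⟨ng 1 [1], List.mem_cons_self .., ?_⟩
      rw [litH_ng]
      change ¬ R 1 [x₁]
      rw [hR.r1]
      exact hx
  · rw [m_k0]
    intro x _ h1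
    rw [hR.r0] at h1
    rw [hR.rk k hk, h1]
    exact ⟨Nat.zero_le _, rfl⟩
  · rw [m_ku]
    intro x _ y _ z _ h1 h2
    rw [hR.rk k hk] at h1 h2
    rw [h1.2, h2.2]
  · rw [m_qu]
    intro x _ h1 h2
    rw [hR.rq q hq] at h1
    rw [hR.rq q' hq'] at h2
    simp only [decide_eq_true_eq] at hne
    apply hne
    rw [h1.2, h2.2]

theorem complete (hm : m.OK) (hb : Bounded3 p.1) (hR : RelG m p R)
    (hfl : m.flag (nn p) = true) (hs : SAT3 p.1) :
    ∃ c : Set ℕ, c.Nonempty ∧ (∀ a ∈ c, a < 2 * (nn p + 1)) ∧ Psi R c (clsH m) := by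
  obtain ⟨v, hv⟩ := hs
  set ξ : ℕ → Bool := fun i => if i % 2 = 1 then v (i / 2) else !(v (i / 2)) with hξ
  set c : Set ℕ := {a | a ≤ nn p ∨ ∃ i ≤ nn p, ξ i = true ∧ a = nn p + 1 + i} with hc
  have hmem : ∀ a, a ∈ c ↔ (a ≤ nn p ∨ ∃ i ≤ nn p, ξ i = true ∧ a = nn p + 1 + i) :=
    fun a => Iff.rfl
  have hnode : ∀ a, a ≤ nn p → a ∈ c := fun a h => Or.inl h
  have htok : ∀ i, i ≤ nn p → ξ i = true → nn p + 1 + i ∈ c := fun i h h' => Or.inr ⟨i, h, h', rfl⟩
  have htok' : ∀ i, nn p + 1 + i ∈ c → ξ i = true := by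
    intro i h
    rcases h with h | ⟨j, _, h2, h3⟩
    · omega
    · obtain rfl : i = j := by omega
      exact h2
  have hlit : ∀ l : Lit ℕ, v l.2 = l.1 → ξ (lt l) = true := by
    rintro ⟨b, w⟩ hw
    rw [hξ]
    unfold lt
    cases b
    · simp only at hw
      simp [hw]
    · simp only at hw
      have e1 : (2 * w + 1) % 2 = 1 := by omega
      have e2 : (2 * w + 1) / 2 = w := by omega
      simp [e2, hw]
  refine ⟨c, ⟨0, hnode 0 (Nat.zero_le _)⟩, ?_, ?_⟩
  · rintro a (h | ⟨i, h1, _, rfl⟩) <;> omega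
  · have hA : Ax R c := by
      constructor
      · intro x _
        rw [hR.r3]
        omega
      · intro x _ y _ z _
        rw [hR.r3, hR.r3, hR.r3]
        omega
      · intro x _ y _
        rw [hR.r3, hR.r3, hR.r7, hR.r7]
        omega
      · intro x _ y _
        rw [hR.r3, hR.r2]
        omega
      · intro x _ y _ z _
        rw [hR.r3, hR.r2, hR.r3]
        omega
      · intro x _ y _
        rw [hR.r3, hR.r7]
        omega
      · intro x _ y _
        rw [hR.r3, hR.r7]
        omega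
      · intro x _ y _
        rw [hR.r4, hR.r7]
        omega
      · intro x _ y _
        rw [hR.r4, hR.r7]
        omega
      · intro x _ y _ z _
        rw [hR.r4, hR.r4]
        omega
      · intro x _ y _
        rw [hR.r0, hR.r3]
        omega
      · intro x _ y _
        rw [hR.r1, hR.r3]
        omega
      · intro x _
        rw [hR.r7, hR.r1]
        intro h
        by_cases hx : x = nn p
        · exact Or.inl hx
        · refine Or.inr ⟨x + 1, hnode _ (by omega), ?_⟩
          rw [hR.r2]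
          omega
      · intro x _
        rw [hR.r7, hR.r0]
        intro h
        by_cases hx : x = 0
        · exact Or.inl hx
        · refine Or.inr ⟨x - 1, hnode _ (by omega), ?_⟩
          rw [hR.r2]
          omega
      · intro x hx
        rw [hR.r7]
        rcases hx with h | ⟨i, h1, h2, h3⟩
        · exact Or.inl h
        · refine Or.inr ⟨i, hnode _ h1, ?_⟩
          rw [hR.r4]
          exact ⟨h1, h3⟩
      · intro x _ y _ z _
        rw [hR.r5]
        rintro ⟨cl, hcl, rfl, rfl, rfl⟩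
        obtain ⟨b1, b2, b3⟩ := lt_lt hb hcl
        rcases hv cl hcl with h | h | h
        · refine ⟨_, htok _ b1.le (hlit _ h), ?_⟩
          simp only [hR.r4]
          exact Or.inl ⟨b1.le, trivial⟩
        · refine ⟨_, htok _ b2.le (hlit _ h), ?_⟩
          simp only [hR.r4]
          exact Or.inr (Or.inl ⟨b2.le, trivial⟩)
        · refine ⟨_, htok _ b3.le (hlit _ h), ?_⟩
          simp only [hR.r4]
          exact Or.inr (Or.inr ⟨b3.le, trivial⟩)
      · intro x _ y _ t ht t' ht'
        rw [hR.r6, hR.r4, hR.r4]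
        rintro ⟨w, hw, rfl, rfl⟩ ⟨_, rfl⟩ ⟨_, rfl⟩
        have h1 := htok' _ ht
        have h2 := htok' _ ht'
        rw [hξ] at h1 h2
        have e1 : (2 * w + 1) % 2 = 1 := by omega
        have e2 : (2 * w + 1) / 2 = w := by omega
        simp [e2] at h1 h2
        rw [h1] at h2
        simp at h2
    intro cl hcl
    unfold clsH at hcl
    rcases List.mem_append.1 hcl with h | h
    · exact psi0_of hA cl h
    · rcases List.mem_append.1 h with h | h
      · exact psiU hm hR c hfl cl h
      · obtain ⟨q, hq, h'⟩ := List.mem_flatMap.1 h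
        exact psiI hm hR c (List.mem_range.1 hq) cl h'

theorem sound_gen (hm : m.OK) (hb : Bounded3 p.1) (hR : RelG m p R) {c : Set ℕ}
    (hne : c.Nonempty) (hc : ∀ a ∈ c, a < 2 * (nn p + 1)) (hp : Psi R c (clsH m)) :
    m.flag (nn p) = true ∧ SAT3 p.1 := by
  classical
  have hf : c.Finite := (Set.finite_lt_nat (2 * (nn p + 1))).subset hc
  obtain ⟨n, x, hA, hC, hfl, _, _⟩ := sound hm hf hne hp
  have hx : ∀ i ≤ n, x i = i := by
    intro i
    induction i with
    | zero =>
      intro _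
      exact (hR.r0 _).1 hC.f
    | succ i ih =>
      intro hi
      have h1 := hC.s i (by omega)
      rw [hR.r2] at h1
      rw [h1.2, ih (by omega)]
  have hn : n = nn p := by
    rw [← hx n le_rfl]
    exact (hR.r1 _).1 hC.l
  subst hn
  have hnode : ∀ i ≤ nn p, i ∈ c := by
    intro i hi
    rw [← hx i hi]
    exact hC.mem i hi
  refine ⟨hfl, fun w => decide (nn p + 1 + (2 * w + 1) ∈ c), fun cl hcl => ?_⟩
  obtain ⟨b1, b2, b3⟩ := lt_lt hb hcl
  obtain ⟨d1, d2, d3⟩ := hb cl hcl
  have hnn : nn p = 6 * p.1.length + p.2.length := rfl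
  obtain ⟨t, ht, h5⟩ := hA.e5 _ (hnode _ b1.le) _ (hnode _ b2.le) _ (hnode _ b3.le)
    ((hR.r5 _ _ _).2 ⟨cl, hcl, rfl, rfl, rfl⟩)
  simp only [hR.r4] at h5
  have key : ∀ l : Lit ℕ, l.2 < 3 * p.1.length → nn p + 1 + lt l ∈ c →
      decide (nn p + 1 + (2 * l.2 + 1) ∈ c) = l.1 := by
    rintro ⟨b, w⟩ hw hl
    simp only at hw
    unfold lt at hl
    cases b
    · simp only [Bool.false_eq_true, if_false, add_zero] at hl
      simp only [decide_eq_false_iff_not]
      intro h
      exact hA.n1 (2 * w) (hnode _ (by omega)) (2 * w + 1) (hnode _ (by omega)) _ hl _ h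
        ((hR.r6 _ _).2 ⟨w, hw, rfl, rfl⟩) ((hR.r4 _ _).2 ⟨by omega, rfl⟩)
        ((hR.r4 _ _).2 ⟨by omega, rfl⟩)
    · simpa using hl
  rcases h5 with h | h | h
  · exact Or.inl (key _ d1 (h.2 ▸ ht))
  · exact Or.inr (Or.inl (key _ d2 (h.2 ▸ ht)))
  · exact Or.inr (Or.inr (key _ d3 (h.2 ▸ ht)))

theorem gen_iff (hm : m.OK) (hb : Bounded3 p.1) :
    (∃ c : Set ℕ, c.Nonempty ∧ (∀ a ∈ c, a < (gen (dat m) p).1.length) ∧
      Psi (fc (gen (dat m) p)) c (clsH m)) ↔ m.flag (nn p) = true ∧ SAT3 p.1 := by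
  have hl : (gen (dat m) p).1.length = 2 * (nn p + 1) := by simp [gen]
  rw [hl]
  constructor
  · rintro ⟨c, h1, h2, h3⟩
    exact sound_gen hm hb (relG hm) h1 h2 h3
  · rintro ⟨h1, h2⟩
    exact complete hm hb (relG hm) h1 h2

/-- The structure attached to a formula is a yes-instance if and only if the flag is down or the
formula is not satisfiable. -/
theorem her_gen (hm : m.OK) (hb : Bounded3 p.1) :
    HER (tauH m) (.neg (psiF (clsH m))) (gen (dat m) p) ↔
      ¬ (m.flag (nn p) = true ∧ SAT3 p.1) := by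
  rw [her_iff, gen_iff hm hb]
  have hl : (gen (dat m) p).1.length = 2 * (nn p + 1) := by simp [gen]
  have h1 := isInst_gen hm hb
  have h2 : 0 < (gen (dat m) p).1.length := by omega
  tauto

end Pool.Agent.V8H38.HF
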