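import Pool.Agent.V8H38.HF.Easy

/-!
# The search predicate
-/

namespace Pool.Agent.V8H38.HF

open Function Pool.Agent.NPC Pool.Agent.H593R3.FBC Pool.Agent.H660R2.NX
open Pool.Agent.H639R2.NTP (polyTime_primrec)
open Pool.Agent.H639R2.NTP.C5 (allL mem_allL primrec_allL primrec_pairBits primrec_replicate)

attribute [local irreducible] unpair

/-- Decoding the data of a machine. -/
def decD (d : List Bool) : Dat := (unbits Dat d).getD ([], [], [], [])

theorem decD_bits (D : Dat) : decD (bits D) = D := by
  simp [decD, unbits_bits]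

theorem poly_decD : Poly decD := by
  unfold decD
  have h : Poly (unbits Dat) := poly_unbits
  fun_prop

theorem poly_chkE : Poly (fun p : Dat × List Bool × Inst × List Bool =>
    chkE p.1 p.2.1.length p.2.2.1 p.2.2.2) := by
  unfold chkE selB
  have h1 : Poly (fun p : Dat × List Bool × Inst × List Bool => badB p.1 p.2.2.1) :=
    poly_badB (by fun_prop) (by fun_prop)
  have h0 := poly_dm
  have h2 : Poly (fun p : Dat × List Bool × Inst × List Bool =>
      (dm p.2.2.1).filter (fun i => p.2.2.2.getD i false)) := by fun_prop
  have h3 : Poly (fun p : Dat × List Bool × Inst × List Bool => tst p.1.2.2.2 p.2.2.1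
      ((dm p.2.2.1).filter (fun i => p.2.2.2.getD i false))) :=
    poly_tst (by fun_prop) (by fun_prop) h2
  fun_prop

/-- The test, in terms of strings. -/
def chkY (d c y t : List Bool) : Bool :=
  (unbits Inst y).elim true (fun I => chkE (decD d) t.length I c)

theorem poly_chkY : Poly (fun v : List Bool => chkY (unpair v).1 (unpair (unpair v).2).1
    (unpair (unpair (unpair v).2).2).1 (unpair (unpair (unpair v).2).2).2) := by
  have h0 : Poly (fun p : List Bool × List Bool × List Bool × List Bool =>
      chkY p.1 p.2.1 p.2.2.1 p.2.2.2) := by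
    unfold chkY
    have h1 : Poly (fun p : List Bool × List Bool × List Bool × List Bool =>
        unbits Inst p.2.2.1) := poly_unbits.comp (by fun_prop)
    have h2 := poly_decD
    refine Poly.optElim h1 (by fun_prop) ?_
    exact poly_chkE.comp (f := fun p : (List Bool × List Bool × List Bool × List Bool) × Inst =>
      (decD p.1.1, p.1.2.2.2, p.2, p.1.2.1)) (by fun_prop)
  exact h0.comp (f := fun v => ((unpair v).1, (unpair (unpair v).2).1,
    (unpair (unpair (unpair v).2).2).1, (unpair (unpair (unpair v).2).2).2)) (by fun_prop)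

/-- The easy test, in terms of strings. -/
def ES (x : ℕ) (d y : List Bool) : Prop :=
  ∃ c ∈ allL y.length, chkY d c y (List.replicate x true) = true

/-- The meaning of the easy test. -/
def EV (x : ℕ) (D : Dat) (y : List Bool) : Prop :=
  (unbits Inst y).elim True (fun I => badB D I = true ∨ EZ D.2.2.2 x I)

theorem dom_le {y : List Bool} {I : Inst} (h : unbits Inst y = some I) :
    I.1.length ≤ y.length := by
  have h1 := bits_of_unbits h
  rw [← h1, bits_length]
  obtain ⟨a, b⟩ := I
  have := length_lt_sz a
  simp only [sz_pair]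
  omega

theorem ES_iff {x : ℕ} {d y : List Bool} : ES x d y ↔ EV x (decD d) y := by
  unfold ES EV chkY
  simp only [List.length_replicate]
  cases h : unbits Inst y with
  | none =>
    simp only [Option.elim_none, and_true, iff_true]
    exact ⟨List.replicate y.length false, mem_allL.2 (by simp)⟩
  | some I =>
    simp only [Option.elim_some]
    exact chkE_iff (dom_le h)

/-- The decision procedure for fixed data and a fixed bound. -/
def dY (D : Dat) (x : ℕ) (y : List Bool) : Bool := (unbits Inst y).elim true (dE D x)

theorem poly_dY (D : Dat) (x : ℕ) : Poly (dY D x) := by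
  unfold dY
  have h1 : Poly (unbits Inst) := poly_unbits
  have h2 := poly_dE D x
  fun_prop

theorem dY_iff {D : Dat} {x : ℕ} {y : List Bool} : dY D x y = true ↔ EV x D y := by
  unfold dY EV
  cases unbits Inst y with
  | none => simp
  | some I =>
    simp only [Option.elim_some]
    exact dE_iff

/-- The structure is small. -/
def smB (y t : List Bool) : Bool :=
  (unbits Inst y).elim true (fun I => decide (I.1.length ≤ t.length))

theorem poly_smB : Poly (fun v : List Bool => smB (unpair v).1 (unpair v).2) := by
  have h0 : Poly (fun p : List Bool × List Bool => smB p.1 p.2) := by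
    unfold smB
    have h1 : Poly (fun p : List Bool × List Bool => unbits Inst p.1) :=
      poly_unbits.comp (by fun_prop)
    fun_prop
  exact h0.comp (f := fun v => ((unpair v).1, (unpair v).2)) (by fun_prop)

/-! ### The search predicate -/

/-- A formula on which the function number `z` fails to decide the problem. -/
def V1 (x : ℕ) (d z w : List Bool) (N : ℕ) : Prop :=
  bdB (decF w).1 = true ∧ x ≤ nn (decF w) ∧ nn (decF w) < N ∧
    (FU z x (bits (gen (decD d) (decF w))) = [true] ↔
      ∃ c ∈ allL (3 * (decF w).1.length), chkS (decF w).1 c = true)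

/-- A formula on which the function number `z` fails to be a reduction. -/
def V2 (x : ℕ) (d z w : List Bool) (N : ℕ) : Prop :=
  bdB (decF w).1 = true ∧ smB (FU z x (bits (decF w).1)) (List.replicate N true) = true ∧
    (ES x d (FU z x (bits (decF w).1)) ↔
      ¬ ∃ c ∈ allL (3 * (decF w).1.length), chkS (decF w).1 c = true)

/-- The search predicate. -/
def GS (x N : ℕ) : Prop :=
  (∀ i ∈ List.range x, ∀ j ∈ List.range x, ∃ v ∈ List.range N,
    V1 x (str i) (str j) (str v) N) ∧
  ∀ i ∈ List.range x, ∀ j ∈ List.range x, ∃ v ∈ List.range N,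
    V2 x (str i) (str j) (str v) N

theorem prim_ES {α : Type} [Primcodable α] {x : α → ℕ} {d y : α → List Bool} (hx : Primrec x)
    (hd : Primrec d) (hy : Primrec y) : PrimrecPred (fun a => ES (x a) (d a) (y a)) := by
  unfold ES
  have h1 : Primrec (fun p : List Bool × List Bool × List Bool × ℕ =>
      chkY p.2.1 p.1 p.2.2.1 (List.replicate p.2.2.2 true)) := by
    have h2 := (prim_bool poly_chkY).comp (prim_pair
      (Primrec.fst.comp (Primrec.snd (α := List Bool) (β := List Bool × List Bool × ℕ)))
      (prim_pair (Primrec.fst (α := List Bool) (β := List Bool × List Bool × ℕ))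
      (prim_pair (Primrec.fst.comp (Primrec.snd.comp (Primrec.snd (α := List Bool)
        (β := List Bool × List Bool × ℕ))))
        (primrec_replicate.comp (Primrec.snd.comp (Primrec.snd.comp (Primrec.snd
          (α := List Bool) (β := List Bool × List Bool × ℕ))))))))
    refine h2.of_eq fun p => ?_
    simp only [unpair_pairBits]
  have h3 : PrimrecRel (fun (c : List Bool) (q : List Bool × List Bool × ℕ) =>
      chkY q.1 c q.2.1 (List.replicate q.2.2 true) = true) :=
    PrimrecRel.comp Primrec.eq h1 (Primrec.const true)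
  exact (h3.exists_mem_list).comp (f := fun a => allL (y a).length)
    (g := fun a => (d a, y a, x a))
    (primrec_allL.comp (Primrec.list_length.comp hy))
    (Primrec.pair hd (Primrec.pair hy hx))

theorem prim_smB {α : Type} [Primcodable α] {y : α → List Bool} {N : α → ℕ} (hy : Primrec y)
    (hN : Primrec N) :
    PrimrecPred (fun a => smB (y a) (List.replicate (N a) true) = true) := by
  have h1 := (prim_bool poly_smB).comp (prim_pair hy (primrec_replicate.comp hN))
  have h2 : Primrec (fun a => smB (y a) (List.replicate (N a) true)) := by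
    refine h1.of_eq fun a => ?_
    rw [unpair_pairBits]
  exact PrimrecRel.comp Primrec.eq h2 (Primrec.const true)

theorem prim_V1 {α : Type} [Primcodable α] {x N : α → ℕ} {d z w : α → List Bool}
    (hx : Primrec x) (hd : Primrec d) (hz : Primrec z) (hw : Primrec w) (hN : Primrec N) :
    PrimrecPred (fun a => V1 (x a) (d a) (z a) (w a) (N a)) := by
  unfold V1
  have h1 : Primrec (fun v : List Bool => bits (gen (decD (unpair v).1) (decF (unpair v).2))) := by
    refine prim_bits ?_
    have h2 := poly_decD
    have h3 := poly_decF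
    exact poly_gen.comp (f := fun v : List Bool => (decD (unpair v).1, decF (unpair v).2))
      (by fun_prop)
  have h4 : Primrec (fun a => bits (gen (decD (d a)) (decF (w a)))) := by
    refine (h1.comp (prim_pair hd hw)).of_eq fun a => ?_
    rw [unpair_pairBits]
  refine (prim_bd hw).and ((PrimrecRel.comp Primrec.nat_le hx (prim_nn hw)).and
    ((PrimrecRel.comp Primrec.nat_lt (prim_nn hw) hN).and (PrimrecPred.iff ?_ (prim_sat hw))))
  exact PrimrecRel.comp Primrec.eq (prim_FU hz hx h4) (Primrec.const [true])

theorem prim_V2 {α : Type} [Primcodable α] {x N : α → ℕ} {d z w : α → List Bool}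
    (hx : Primrec x) (hd : Primrec d) (hz : Primrec z) (hw : Primrec w) (hN : Primrec N) :
    PrimrecPred (fun a => V2 (x a) (d a) (z a) (w a) (N a)) := by
  unfold V2
  have h1 : Primrec (fun v : List Bool => bits (decF v).1) :=
    prim_bits (NPC.Poly.fst poly_decF)
  have h2 := prim_FU hz hx (h1.comp hw)
  exact (prim_bd hw).and ((prim_smB h2 hN).and (PrimrecPred.iff (prim_ES hx hd h2)
    (prim_sat hw).not))

theorem prim_GS : PrimrecRel GS := by
  unfold GS
  refine PrimrecPred.and ?_ ?_
  · have h1 : PrimrecRel (fun (v : ℕ) (q : ℕ × ℕ × ℕ × ℕ) =>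
        V1 q.2.2.1 (str q.2.1) (str q.1) (str v) q.2.2.2) :=
      prim_V1 (Primrec.fst.comp (Primrec.snd.comp (Primrec.snd.comp Primrec.snd)))
        (prim_strN.comp (Primrec.fst.comp (Primrec.snd.comp Primrec.snd)))
        (prim_strN.comp (Primrec.fst.comp Primrec.snd)) (prim_strN.comp Primrec.fst)
        (Primrec.snd.comp (Primrec.snd.comp (Primrec.snd.comp Primrec.snd)))
    have h2 : PrimrecRel (fun (j : ℕ) (q : ℕ × ℕ × ℕ) => ∃ v ∈ List.range q.2.2,
        V1 q.2.1 (str q.1) (str j) (str v) q.2.2) :=
      (h1.exists_mem_list).comp (f := fun q : ℕ × ℕ × ℕ × ℕ => List.range q.2.2.2)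
        (g := fun q => q)
        (Primrec.list_range.comp (Primrec.snd.comp (Primrec.snd.comp Primrec.snd))) Primrec.id
    have h3 : PrimrecRel (fun (i : ℕ) (p : ℕ × ℕ) => ∀ j ∈ List.range p.1,
        ∃ v ∈ List.range p.2, V1 p.1 (str i) (str j) (str v) p.2) :=
      (h2.forall_mem_list).comp (f := fun q : ℕ × ℕ × ℕ => List.range q.2.1)
        (g := fun q => q) (Primrec.list_range.comp (Primrec.fst.comp Primrec.snd)) Primrec.id
    exact (h3.forall_mem_list).comp (f := fun p : ℕ × ℕ => List.range p.1) (g := fun p => p)
      (Primrec.list_range.comp Primrec.fst) Primrec.id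
  · have h1 : PrimrecRel (fun (v : ℕ) (q : ℕ × ℕ × ℕ × ℕ) =>
        V2 q.2.2.1 (str q.2.1) (str q.1) (str v) q.2.2.2) :=
      prim_V2 (Primrec.fst.comp (Primrec.snd.comp (Primrec.snd.comp Primrec.snd)))
        (prim_strN.comp (Primrec.fst.comp (Primrec.snd.comp Primrec.snd)))
        (prim_strN.comp (Primrec.fst.comp Primrec.snd)) (prim_strN.comp Primrec.fst)
        (Primrec.snd.comp (Primrec.snd.comp (Primrec.snd.comp Primrec.snd)))
    have h2 : PrimrecRel (fun (j : ℕ) (q : ℕ × ℕ × ℕ) => ∃ v ∈ List.range q.2.2,
        V2 q.2.1 (str q.1) (str j) (str v) q.2.2) :=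
      (h1.exists_mem_list).comp (f := fun q : ℕ × ℕ × ℕ × ℕ => List.range q.2.2.2)
        (g := fun q => q)
        (Primrec.list_range.comp (Primrec.snd.comp (Primrec.snd.comp Primrec.snd))) Primrec.id
    have h3 : PrimrecRel (fun (i : ℕ) (p : ℕ × ℕ) => ∀ j ∈ List.range p.1,
        ∃ v ∈ List.range p.2, V2 p.1 (str i) (str j) (str v) p.2) :=
      (h2.forall_mem_list).comp (f := fun q : ℕ × ℕ × ℕ => List.range q.2.1)
        (g := fun q => q) (Primrec.list_range.comp (Primrec.fst.comp Primrec.snd)) Primrec.id
    exact (h3.forall_mem_list).comp (f := fun p : ℕ × ℕ => List.range p.1) (g := fun p => p)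
      (Primrec.list_range.comp Primrec.fst) Primrec.id

end Pool.Agent.V8H38.HF
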