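import Pool.Agent.V8H38.HF.Cls

/-!
# The clauses of a machine

The symbols: 0 first node, 1 last node, 2 successor, 3 order, 4 token of a node, 5 positive
clauses, 6 negative clauses, 7 nodes, `8 + q` label `q`, `8 + nQ + k` value of the counter `k`.
-/

namespace Pool.Agent.V8H38.HF

open Function Pool.Agent.NPC Pool.Agent.H593R3.FBC

/-- positive literals -/
def ps (i : ℕ) (l : List ℕ) : Lt := (true, i + 1, l)

/-- negative literals -/
def ng (i : ℕ) (l : List ℕ) : Lt := (false, i + 1, l)

/-- equations -/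
def eqv (a b : ℕ) : Lt := (true, 0, [a, b])

/-- the fixed clauses -/
def cls0 : List Cl :=
  [[ng 3 [1, 1]],
   [ng 3 [1, 2], ng 3 [2, 3], ps 3 [1, 3]],
   [ng 7 [1], ng 7 [2], eqv 1 2, ps 3 [1, 2], ps 3 [2, 1]],
   [ng 2 [1, 2], ps 3 [1, 2]],
   [ng 2 [1, 2], ng 3 [1, 3], ng 3 [3, 2]],
   [ng 3 [1, 2], ps 7 [1]],
   [ng 3 [1, 2], ps 7 [2]],
   [ng 4 [1, 2], ps 7 [1]],
   [ng 4 [1, 2], ng 7 [2]],
   [ng 4 [1, 2], ng 4 [1, 3], eqv 2 3],
   [ng 0 [1], ng 3 [2, 1]],
   [ng 1 [1], ng 3 [1, 2]],
   [ng 7 [1], ps 1 [1], ps 2 [1, 0]],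
   [ng 7 [1], ps 0 [1], ps 2 [0, 1]],
   [ps 7 [1], ps 4 [0, 1]],
   [ng 5 [1, 2, 3], ps 4 [1, 0], ps 4 [2, 0], ps 4 [3, 0]],
   [ng 6 [1, 2], ng 4 [1, 3], ng 4 [2, 4]]]

/-- the clauses about the labels and the counters -/
def clsU (nQ nK : ℕ) (act : ℕ → Bool) : List Cl :=
  [ng 0 [1], ps 8 [1]] ::
  (ng 1 [1] :: ((List.range nQ).filter act).map (fun q => ps (8 + q) [1])) ::
  ((List.range nK).map (fun k => [ng 0 [1], ps (8 + nQ + k) [1, 1]]) ++
  ((List.range nK).map (fun k => [ng (8 + nQ + k) [1, 2], ng (8 + nQ + k) [1, 3], eqv 2 3]) ++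
  (List.range nQ).flatMap (fun q => ((List.range nQ).filter (fun q' => decide (q' ≠ q))).map
    (fun q' => [ng (8 + q) [1], ng (8 + q') [1]]))))

/-- the premises of the transitions -/
def pre (q : ℕ) : Cl := [ng (8 + q) [1], ng 2 [1, 2]]

/-- the counters which do not change -/
def keep (nQ nK q : ℕ) (s : ℕ → Bool) : List Cl :=
  ((List.range nK).filter s).map
    (fun k => pre q ++ [ng (8 + nQ + k) [1, 3], ps (8 + nQ + k) [2, 3]])

/-- the clauses of an instruction -/
def clsI (nQ nK q : ℕ) : Ins → List Cl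
  | .inc k q' => [pre q ++ [ps (8 + q') [2]],
      pre q ++ [ng (8 + nQ + k) [1, 3], ng 2 [3, 4], ps (8 + nQ + k) [2, 4]]] ++
      keep nQ nK q (fun k' => decide (k' ≠ k))
  | .dec k q' q'' => [pre q ++ [ng (8 + nQ + k) [1, 3], ng 0 [3], ps (8 + q'') [2]],
      pre q ++ [ng (8 + nQ + k) [1, 3], ng 0 [3], ps (8 + nQ + k) [2, 3]],
      pre q ++ [ng (8 + nQ + k) [1, 3], ng 2 [4, 3], ps (8 + q') [2]],
      pre q ++ [ng (8 + nQ + k) [1, 3], ng 2 [4, 3], ps (8 + nQ + k) [2, 4]]] ++
      keep nQ nK q (fun k' => decide (k' ≠ k))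
  | .jmp q' => [pre q ++ [ps (8 + q') [2]]] ++ keep nQ nK q (fun _ => true)
  | .rst q' => [pre q ++ [ps (8 + q') [2]], pre q ++ [ps (8 + nQ) [2, 1]]] ++
      ((List.range nK).filter (fun k => decide (k ≠ 0))).map
        (fun k => pre q ++ [ng 0 [3], ps (8 + nQ + k) [2, 3]])

/-- the clauses of the machine -/
def clsH (m : Mach) : List Cl :=
  cls0 ++ (clsU m.nQ m.nK m.act ++ (List.range m.nQ).flatMap (fun q => clsI m.nQ m.nK q (m.ins q)))

/-- the signature -/
def tauH (m : Mach) : List ℕ :=
  [1, 1, 2, 2, 2, 3, 2, 1] ++ (List.replicate m.nQ 1 ++ List.replicate m.nK 2)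

/-! ### The signature -/

theorem tau_q {m : Mach} {q : ℕ} (h : q < m.nQ) : (tauH m)[8 + q]? = some 1 := by
  unfold tauH
  rw [List.getElem?_append_right (by simp), List.getElem?_append_left (by simp; omega)]
  have e : 8 + q - [1, 1, 2, 2, 2, 3, 2, 1].length = q := by simp
  rw [e, List.getElem?_replicate, if_pos h]

theorem tau_k {m : Mach} {k : ℕ} (h : k < m.nK) : (tauH m)[8 + m.nQ + k]? = some 2 := by
  unfold tauH
  rw [List.getElem?_append_right (by simp; omega), List.getElem?_append_right (by simp; omega)]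
  have e : 8 + m.nQ + k - [1, 1, 2, 2, 2, 3, 2, 1].length - (List.replicate m.nQ 1).length = k := by
    simp
    omega
  rw [e, List.getElem?_replicate, if_pos h]

theorem tau_bd {m : Mach} {i a : ℕ} (h : (tauH m)[i]? = some a) : 1 ≤ a ∧ a ≤ 3 := by
  have h1 := List.mem_of_getElem? h
  unfold tauH at h1
  simp only [List.mem_append, List.mem_cons, List.not_mem_nil, or_false, List.mem_replicate] at h1
  omega

/-- the literals are literals of the signature -/
def OKcls (τ : List ℕ) (l : List Cl) : Prop := ∀ cl ∈ l, ∀ t ∈ cl, LtOK τ t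

theorem OKcls.append {τ : List ℕ} {l l' : List Cl} (h : OKcls τ l) (h' : OKcls τ l') :
    OKcls τ (l ++ l') := by
  intro cl hcl
  rcases List.mem_append.1 hcl with h1 | h1
  · exact h cl h1
  · exact h' cl h1

theorem ok0 (m : Mach) : OKcls (tauH m) cls0 := by
  intro cl hcl t ht
  simp only [cls0, List.mem_cons, List.not_mem_nil, or_false] at hcl
  rcases hcl with rfl | rfl | rfl | rfl | rfl | rfl | rfl | rfl | rfl | rfl | rfl | rfl | rfl |
    rfl | rfl | rfl | rfl <;>
  · simp only [List.mem_cons, List.not_mem_nil, or_false] at ht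
    rcases ht with rfl | rfl | rfl | rfl | rfl <;> simp [LtOK, ng, ps, eqv, tauH]

theorem okU {m : Mach} (hm : m.OK) : OKcls (tauH m) (clsU m.nQ m.nK m.act) := by
  intro cl hcl t ht
  have h0 := tau_q (m := m) hm.hQ
  simp only [clsU, List.mem_cons, List.mem_append, List.mem_map, List.mem_range,
    List.mem_flatMap, List.mem_filter] at hcl
  rcases hcl with rfl | rfl | ⟨k, hk, rfl⟩ | ⟨k, hk, rfl⟩ | ⟨q, hq, q', ⟨hq', _⟩, rfl⟩
  · simp only [List.mem_cons, List.not_mem_nil, or_false] at ht
    rcases ht with rfl | rfl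
    · simp [LtOK, ng, tauH]
    · right; exact h0
  · simp only [List.mem_cons, List.mem_map, List.mem_filter, List.mem_range] at ht
    rcases ht with rfl | ⟨q, ⟨hq, _⟩, rfl⟩
    · simp [LtOK, ng, tauH]
    · right; exact tau_q hq
  · simp only [List.mem_cons, List.not_mem_nil, or_false] at ht
    rcases ht with rfl | rfl
    · simp [LtOK, ng, tauH]
    · right; exact tau_k hk
  · simp only [List.mem_cons, List.not_mem_nil, or_false] at ht
    rcases ht with rfl | rfl | rfl
    · right; exact tau_k hk
    · right; exact tau_k hk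
    · left; rfl
  · simp only [List.mem_cons, List.not_mem_nil, or_false] at ht
    rcases ht with rfl | rfl
    · right; exact tau_q hq
    · right; exact tau_q hq'

theorem okI' {m : Mach} (hm : m.OK) {q : ℕ} (hq : q < m.nQ) :
    OKcls (tauH m) (clsI m.nQ m.nK q (m.ins q)) := by
  have h0 := tau_q hq
  have e0 : (tauH m)[0]? = some 1 := by simp [tauH]
  have e2 : (tauH m)[2]? = some 2 := by simp [tauH]
  have hp : ∀ t ∈ pre q, LtOK (tauH m) t := by
    intro t ht
    simp only [pre, List.mem_cons, List.not_mem_nil, or_false] at ht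
    rcases ht with rfl | rfl
    · right; exact h0
    · right; exact e2
  have hk : ∀ s, OKcls (tauH m) (keep m.nQ m.nK q s) := by
    intro s cl hcl t ht
    simp only [keep, List.mem_map, List.mem_filter, List.mem_range] at hcl
    obtain ⟨k, ⟨hk, _⟩, rfl⟩ := hcl
    simp only [List.mem_append, List.mem_cons, List.not_mem_nil, or_false] at ht
    rcases ht with ht | rfl | rfl
    · exact hp t ht
    · right; exact tau_k hk
    · right; exact tau_k hk
  have hok := hm.ins q hq
  cases hi : m.ins q with
  | inc k q' =>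
    rw [hi] at hok
    refine OKcls.append ?_ (hk _)
    intro cl hcl t ht
    simp only [List.mem_cons, List.not_mem_nil, or_false] at hcl
    rcases hcl with rfl | rfl <;>
    · simp only [List.mem_append, List.mem_cons, List.not_mem_nil, or_false] at ht
      rcases ht with ht | ht
      · exact hp t ht
      · rcases ht with rfl | rfl | rfl <;> right <;>
          first | exact tau_k hok.1 | exact tau_q hok.2 | exact e2
  | dec k q' q'' =>
    rw [hi] at hok
    refine OKcls.append ?_ (hk _)
    intro cl hcl t ht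
    simp only [List.mem_cons, List.not_mem_nil, or_false] at hcl
    rcases hcl with rfl | rfl | rfl | rfl <;>
    · simp only [List.mem_append, List.mem_cons, List.not_mem_nil, or_false] at ht
      rcases ht with ht | ht
      · exact hp t ht
      · rcases ht with rfl | rfl | rfl <;> right <;>
          first | exact tau_k hok.1 | exact tau_q hok.2.1 | exact tau_q hok.2.2 | exact e2 | exact e0
  | jmp q' =>
    rw [hi] at hok
    refine OKcls.append ?_ (hk _)
    intro cl hcl t ht
    simp only [List.mem_cons, List.not_mem_nil, or_false] at hcl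
    subst hcl
    simp only [List.mem_append, List.mem_cons, List.not_mem_nil, or_false] at ht
    rcases ht with ht | rfl
    · exact hp t ht
    · right; exact tau_q hok
  | rst q' =>
    rw [hi] at hok
    refine OKcls.append ?_ ?_
    · intro cl hcl t ht
      simp only [List.mem_cons, List.not_mem_nil, or_false] at hcl
      rcases hcl with rfl | rfl <;>
      · simp only [List.mem_append, List.mem_cons, List.not_mem_nil, or_false] at ht
        rcases ht with ht | rfl
        · exact hp t ht
        · right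
          first | exact tau_q hok | exact tau_k (k := 0) hm.hK
    · intro cl hcl t ht
      simp only [List.mem_map, List.mem_filter, List.mem_range] at hcl
      obtain ⟨k, ⟨hk', _⟩, rfl⟩ := hcl
      simp only [List.mem_append, List.mem_cons, List.not_mem_nil, or_false] at ht
      rcases ht with ht | rfl | rfl
      · exact hp t ht
      · right; exact e0
      · right; exact tau_k hk'

theorem okH {m : Mach} (hm : m.OK) : OKcls (tauH m) (clsH m) := by
  refine (ok0 m).append ((okU hm).append ?_)
  intro cl hcl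
  obtain ⟨q, hq, h⟩ := List.mem_flatMap.1 hcl
  exact okI' hm (List.mem_range.1 hq) cl h

end Pool.Agent.V8H38.HF
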