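import Pool.Agent.V8H38.HF.Ax2

/-!
# Substructures which satisfy the clauses
-/

namespace Pool.Agent.V8H38.HF

open Function Pool.Agent.NPC Pool.Agent.H593R3.FBC

variable {R : Rels ℕ} {c : Set ℕ}

/-- The nodes are `x 0, ..., x n`. -/
structure Chain (R : Rels ℕ) (c : Set ℕ) (n : ℕ) (x : ℕ → ℕ) : Prop where
  mem : ∀ i ≤ n, x i ∈ c
  m : ∀ i ≤ n, R 7 [x i]
  s : ∀ i < n, R 2 [x i, x (i + 1)]
  f : R 0 [x 0]
  l : R 1 [x n]
  all : ∀ z ∈ c, R 7 [z] → ∃ i ≤ n, z = x i

theorem exists_chain (hf : c.Finite) (hne : c.Nonempty) (h : Ax R c) :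
    ∃ (n : ℕ) (x : ℕ → ℕ), Chain R c n x := by
  obtain ⟨a, ha⟩ := hne
  have h0 : ∃ z ∈ c, R 7 [z] := by
    rcases h.e3 a ha with h1 | ⟨y, hy, h1⟩
    · exact ⟨a, ha, h1⟩
    · exact ⟨y, hy, h.a8 y hy a ha h1⟩
  obtain ⟨z0, hz0, hz0'⟩ := h0
  let A : Type := {z : ℕ // z ∈ c ∧ R 7 [z]}
  have : Finite A := (hf.subset (fun z (hz : z ∈ c ∧ R 7 [z]) => hz.1)).to_subtype
  let r : A → A → Prop := fun a b => R 3 [a.1, b.1]
  have i1 : IsTrans A r := ⟨fun a b d h1 h2 => h.a2 _ a.2.1 _ b.2.1 _ d.2.1 h1 h2⟩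
  have i2 : Std.Irrefl r := ⟨fun a h1 => h.a1 _ a.2.1 h1⟩
  have i3 : IsTrans A (Function.swap r) :=
    ⟨fun a b d h1 h2 => h.a2 _ d.2.1 _ b.2.1 _ a.2.1 h2 h1⟩
  have i4 : Std.Irrefl (Function.swap r) := ⟨fun a h1 => h.a1 _ a.2.1 h1⟩
  have w1 : WellFounded r := Finite.wellFounded_of_trans_of_irrefl r
  have w2 : WellFounded (Function.swap r) := Finite.wellFounded_of_trans_of_irrefl _
  have key : ∀ a : A, ∃ (n : ℕ) (x : ℕ → ℕ), x 0 = a.1 ∧ (∀ i ≤ n, x i ∈ c) ∧
      (∀ i ≤ n, R 7 [x i]) ∧ (∀ i < n, R 2 [x i, x (i + 1)]) ∧ R 1 [x n] ∧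
      ∀ z ∈ c, R 7 [z] → (z = a.1 ∨ R 3 [a.1, z]) → ∃ i ≤ n, z = x i := by
    intro a
    induction a using w2.induction with
    | _ a ih =>
      rcases h.e1 a.1 a.2.1 a.2.2 with h1 | ⟨y, hy, h1⟩
      · refine ⟨0, fun _ => a.1, rfl, fun i _ => a.2.1, fun i _ => a.2.2, fun i hi => ?_, h1, ?_⟩
        · omega
        · rintro z hz hz7 (rfl | hz3)
          · exact ⟨0, le_rfl, rfl⟩
          · exact absurd hz3 (h.a12 _ a.2.1 _ hz h1)
      · have h3 := h.a4 _ a.2.1 _ hy h1
        have hy7 := h.a7 _ a.2.1 _ hy h3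
        obtain ⟨n, x, hx0, hx1, hx2, hx3, hx4, hx5⟩ := ih ⟨y, hy, hy7⟩ h3
        refine ⟨n + 1, fun i => Nat.casesOn i a.1 x, rfl, ?_, ?_, ?_, hx4, ?_⟩
        · intro i hi
          cases i with
          | zero => exact a.2.1
          | succ i => exact hx1 i (by omega)
        · intro i hi
          cases i with
          | zero => exact a.2.2
          | succ i => exact hx2 i (by omega)
        · intro i hi
          cases i with
          | zero =>
            change R 2 [a.1, x 0]
            rw [hx0]; exact h1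
          | succ i => exact hx3 i (by omega)
        · rintro z hz hz7 (rfl | hz3)
          · exact ⟨0, by omega, rfl⟩
          · have : z = y ∨ R 3 [y, z] := by
              rcases h.a3 z hz y hy hz7 hy7 with h4 | h4 | h4
              · exact Or.inl h4
              · exact absurd h4 (h.a5 _ a.2.1 _ hy _ hz h1 hz3)
              · exact Or.inr h4
            obtain ⟨i, hi, e⟩ := hx5 z hz hz7 this
            exact ⟨i + 1, by omega, e⟩
  obtain ⟨a0, -, hmin⟩ := w1.has_min Set.univ ⟨⟨z0, hz0, hz0'⟩, trivial⟩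
  obtain ⟨n, x, hx0, hx1, hx2, hx3, hx4, hx5⟩ := key a0
  refine ⟨n, x, hx1, hx2, hx3, ?_, hx4, fun z hz hz7 => hx5 z hz hz7 ?_⟩
  · rw [hx0]
    rcases h.e2 a0.1 a0.2.1 a0.2.2 with h1 | ⟨y, hy, h1⟩
    · exact h1
    · have h3 := h.a4 _ hy _ a0.2.1 h1
      have h7 := h.a6 _ hy _ a0.2.1 h3
      exact absurd h3 (hmin ⟨y, hy, h7⟩ trivial)
  · rcases h.a3 z hz a0.1 a0.2.1 hz7 a0.2.2 with h4 | h4 | h4
    · exact Or.inl h4
    · exact absurd h4 (hmin ⟨z, hz, hz7⟩ trivial)
    · exact Or.inr h4

theorem Chain.w {n : ℕ} {x : ℕ → ℕ} (hc : Chain R c n x) (h : Ax R c) {i j : ℕ} (hij : i < j)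
    (hj : j ≤ n) : R 3 [x i, x j] := by
  induction j with
  | zero => omega
  | succ j ih =>
    have h1 := h.a4 _ (hc.mem j (by omega)) _ (hc.mem (j + 1) hj) (hc.s j (by omega))
    rcases Nat.lt_succ_iff_lt_or_eq.1 hij with h2 | rfl
    · exact h.a2 _ (hc.mem i (by omega)) _ (hc.mem j (by omega)) _ (hc.mem (j + 1) hj)
        (ih h2 (by omega)) h1
    · exact h1

theorem Chain.inj {n : ℕ} {x : ℕ → ℕ} (hc : Chain R c n x) (h : Ax R c) {i j : ℕ} (hi : i ≤ n)
    (hj : j ≤ n) (e : x i = x j) : i = j := by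
  rcases lt_trichotomy i j with h1 | h1 | h1
  · have h2 := hc.w h h1 hj
    rw [e] at h2
    exact absurd h2 (h.a1 _ (hc.mem _ hj))
  · exact h1
  · have h2 := hc.w h h1 hi
    rw [e] at h2
    exact absurd h2 (h.a1 _ (hc.mem _ hj))

theorem Chain.card {n : ℕ} {x : ℕ → ℕ} (hc : Chain R c n x) (h : Ax R c) (hf : c.Finite) :
    n + 1 ≤ c.ncard ∧ c.ncard ≤ 2 * (n + 1) := by
  classical
  constructor
  · have h1 : ((Finset.range (n + 1)).image x : Set ℕ) ⊆ c := by
      intro z hz
      simp only [Finset.coe_image, Finset.coe_range, Set.mem_image, Set.mem_Iio] at hz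
      obtain ⟨i, hi, rfl⟩ := hz
      exact hc.mem i (by omega)
    have h2 := Set.ncard_le_ncard h1 hf
    rw [Set.ncard_coe_finset, Finset.card_image_of_injOn, Finset.card_range] at h2
    · exact h2
    · intro i hi j hj e
      simp only [Finset.coe_range, Set.mem_Iio] at hi hj
      exact hc.inj h (by omega) (by omega) e
  · let tok : ℕ → ℕ := fun i => if ht : ∃ t ∈ c, R 4 [x i, t] then ht.choose else 0
    have h1 : c ⊆ (((Finset.range (n + 1)).image x ∪ (Finset.range (n + 1)).image tok : Finset ℕ) :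
        Set ℕ) := by
      intro z hz
      rw [Finset.mem_coe, Finset.mem_union, Finset.mem_image, Finset.mem_image]
      by_cases h7 : R 7 [z]
      · obtain ⟨i, hi, rfl⟩ := hc.all z hz h7
        exact Or.inl ⟨i, Finset.mem_range.2 (by omega), rfl⟩
      · rcases h.e3 z hz with h' | ⟨y, hy, h'⟩
        · exact absurd h' h7
        · obtain ⟨i, hi, rfl⟩ := hc.all y hy (h.a8 _ hy _ hz h')
          refine Or.inr ⟨i, Finset.mem_range.2 (by omega), ?_⟩
          have ht : ∃ t ∈ c, R 4 [x i, t] := ⟨z, hz, h'⟩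
          simp only [tok, dif_pos ht]
          exact h.a10 _ hy _ ht.choose_spec.1 _ hz ht.choose_spec.2 h'
    have h2 := Set.ncard_le_ncard h1 (Finset.finite_toSet _)
    rw [Set.ncard_coe_finset] at h2
    have h3 := Finset.card_union_le ((Finset.range (n + 1)).image x)
      ((Finset.range (n + 1)).image tok)
    have h4 := Finset.card_image_le (s := Finset.range (n + 1)) (f := x)
    have h5 := Finset.card_image_le (s := Finset.range (n + 1)) (f := tok)
    rw [Finset.card_range] at h4 h5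
    omega

/-- the history -/
def Hist (m : Mach) (R : Rels ℕ) (x : ℕ → ℕ) (i : ℕ) : Prop :=
  R (8 + m.lab i) [x i] ∧ ∀ k < m.nK, R (8 + m.nQ + k) [x i, x (m.cnt i k)]

theorem hist {m : Mach} (hm : m.OK) {n : ℕ} {x : ℕ → ℕ} (hc : Chain R c n x)
    (hp : Psi R c (clsH m)) : ∀ i ≤ n, Hist m R x i := by
  have hU : Psi R c (clsU m.nQ m.nK m.act) := fun cl hcl => hp cl (by
    unfold clsH
    exact List.mem_append_right _ (List.mem_append_left _ hcl))
  have hI : ∀ q < m.nQ, ∀ cl ∈ clsI m.nQ m.nK q (m.ins q), ClH R c cl := fun q hq cl hcl =>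
    hp cl (by
      unfold clsH
      refine List.mem_append_right _ (List.mem_append_right _ ?_)
      exact List.mem_flatMap.2 ⟨q, List.mem_range.2 hq, hcl⟩)
  have hkeep : ∀ (s : ℕ → Bool) (q : ℕ), (∀ cl ∈ keep m.nQ m.nK q s, ClH R c cl) →
      ∀ i < n, R (8 + q) [x i] → ∀ k < m.nK, s k = true →
        R (8 + m.nQ + k) [x i, x (m.cnt i k)] → R (8 + m.nQ + k) [x (i + 1), x (m.cnt i k)] := by
    intro s q h i hi hq k hk hs hR
    have h1 := h (pre q ++ [ng (8 + m.nQ + k) [1, 3], ps (8 + m.nQ + k) [2, 3]]) (by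
      unfold keep
      exact List.mem_map.2 ⟨k, List.mem_filter.2 ⟨List.mem_range.2 hk, hs⟩, rfl⟩)
    rw [m_t7] at h1
    have h2 := m.cnt_le i k
    exact h1 _ (hc.mem i hi.le) _ (hc.mem (i + 1) hi) _ (hc.mem _ (by omega)) hq (hc.s i hi) hR
  intro i
  induction i with
  | zero =>
    intro _
    refine ⟨?_, fun k hk => ?_⟩
    · have h1 := hU [ng 0 [1], ps 8 [1]] (by simp [clsU])
      rw [m_q0] at h1
      exact h1 _ (hc.mem 0 (by omega)) hc.f
    · have h1 := hU [ng 0 [1], ps (8 + m.nQ + k) [1, 1]] (by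
        simp only [clsU, List.mem_cons, List.mem_append, List.mem_map, List.mem_range]
        exact Or.inr (Or.inr (Or.inl ⟨k, hk, rfl⟩)))
      rw [m_k0] at h1
      exact h1 _ (hc.mem 0 (by omega)) hc.f
  | succ i ih =>
    intro hi
    obtain ⟨h1, h2⟩ := ih (by omega)
    have hq := m.lab_lt hm i
    have hI' := hI _ hq
    have hxi := hc.mem i (by omega)
    have hxi' := hc.mem (i + 1) hi
    have hs := hc.s i (by omega)
    have e1 : m.lab (i + 1) = (m.step i (m.run i)).1 := rfl
    have e2 : ∀ k, m.cnt (i + 1) k = (m.step i (m.run i)).2 k := fun k => rfl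
    have e3 : (m.run i).1 = m.lab i := rfl
    have e4 : (m.run i).2 = m.cnt i := rfl
    have hok := hm.ins _ hq
    unfold Hist
    simp only [e1, e2]
    unfold Mach.step
    rw [e3, e4]
    cases hins : m.ins (m.lab i) with
    | inc k q' =>
      rw [hins] at hI' hok
      simp only
      refine ⟨?_, fun k' hk' => ?_⟩
      · have := hI' (pre (m.lab i) ++ [ps (8 + q') [2]]) (by simp [clsI])
        rw [m_t1] at this
        exact this _ hxi _ hxi' h1 hs
      · by_cases hkk : k' = k
        · subst hkk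
          have := hI' (pre (m.lab i) ++ [ng (8 + m.nQ + k') [1, 3], ng 2 [3, 4],
            ps (8 + m.nQ + k') [2, 4]]) (by simp [clsI])
          rw [m_t2] at this
          have h3 := m.cnt_le i k'
          rw [update_self]
          exact this _ hxi _ hxi' _ (hc.mem _ (by omega)) _ (hc.mem (m.cnt i k' + 1) (by omega))
            h1 hs (h2 k' hk') (hc.s _ (by omega))
        · rw [update_of_ne hkk]
          exact hkeep _ _ (fun cl hcl => hI' cl (by
            simp only [clsI]; exact List.mem_append_right _ hcl)) i (by omega) h1 k' hk'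
            (by simpa using hkk) (h2 k' hk')
    | dec k q' q'' =>
      rw [hins] at hI' hok
      have hkeep' : ∀ k' < m.nK, k' ≠ k →
          R (8 + m.nQ + k') [x (i + 1), x (m.cnt i k')] := fun k' hk' hkk =>
        hkeep _ _ (fun cl hcl => hI' cl (by
            simp only [clsI]; exact List.mem_append_right _ hcl)) i (by omega) h1 k' hk'
            (by simpa using hkk) (h2 k' hk')
      by_cases h0 : m.cnt i k = 0
      · simp only [if_pos h0]
        have h3 := h2 k hok.1
        rw [h0] at h3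
        refine ⟨?_, fun k' hk' => ?_⟩
        · have := hI' (pre (m.lab i) ++ [ng (8 + m.nQ + k) [1, 3], ng 0 [3], ps (8 + q'') [2]])
            (by simp [clsI])
          rw [m_t3] at this
          exact this _ hxi _ hxi' _ (hc.mem 0 (by omega)) h1 hs h3 hc.f
        · by_cases hkk : k' = k
          · subst hkk
            have := hI' (pre (m.lab i) ++ [ng (8 + m.nQ + k') [1, 3], ng 0 [3],
              ps (8 + m.nQ + k') [2, 3]]) (by simp [clsI])
            rw [m_t4] at this
            rw [h0]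
            exact this _ hxi _ hxi' _ (hc.mem 0 (by omega)) h1 hs h3 hc.f
          · exact hkeep' k' hk' hkk
      · simp only [if_neg h0]
        have h3 := h2 k hok.1
        have h4 := m.cnt_le i k
        have h5 := hc.s (m.cnt i k - 1) (by omega)
        rw [Nat.sub_add_cancel (by omega)] at h5
        refine ⟨?_, fun k' hk' => ?_⟩
        · have := hI' (pre (m.lab i) ++ [ng (8 + m.nQ + k) [1, 3], ng 2 [4, 3], ps (8 + q') [2]])
            (by simp [clsI])
          rw [m_t5] at this
          exact this _ hxi _ hxi' _ (hc.mem _ (by omega)) _ (hc.mem (m.cnt i k - 1) (by omega))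
            h1 hs h3 h5
        · by_cases hkk : k' = k
          · subst hkk
            have := hI' (pre (m.lab i) ++ [ng (8 + m.nQ + k') [1, 3], ng 2 [4, 3],
              ps (8 + m.nQ + k') [2, 4]]) (by simp [clsI])
            rw [m_t6] at this
            rw [update_self]
            exact this _ hxi _ hxi' _ (hc.mem _ (by omega)) _ (hc.mem (m.cnt i k' - 1) (by omega))
              h1 hs h3 h5
          · rw [update_of_ne hkk]
            exact hkeep' k' hk' hkk
    | jmp q' =>
      rw [hins] at hI' hok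
      simp only
      refine ⟨?_, fun k' hk' => ?_⟩
      · have := hI' (pre (m.lab i) ++ [ps (8 + q') [2]]) (by simp [clsI])
        rw [m_t1] at this
        exact this _ hxi _ hxi' h1 hs
      · exact hkeep _ _ (fun cl hcl => hI' cl (by
            simp only [clsI]; exact List.mem_append_right _ hcl)) i (by omega) h1 k' hk'
            rfl (h2 k' hk')
    | rst q' =>
      rw [hins] at hI' hok
      simp only
      refine ⟨?_, fun k' hk' => ?_⟩
      · have := hI' (pre (m.lab i) ++ [ps (8 + q') [2]]) (by simp [clsI])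
        rw [m_t1] at this
        exact this _ hxi _ hxi' h1 hs
      · by_cases hkk : k' = 0
        · subst hkk
          rw [if_pos rfl]
          have := hI' (pre (m.lab i) ++ [ps (8 + m.nQ) [2, 1]]) (by simp [clsI])
          rw [m_t8] at this
          exact this _ hxi _ hxi' h1 hs
        · rw [if_neg hkk]
          have := hI' (pre (m.lab i) ++ [ng 0 [3], ps (8 + m.nQ + k') [2, 3]]) (by
            simp only [clsI, List.mem_append, List.mem_map, List.mem_filter, List.mem_range]
            exact Or.inr ⟨k', ⟨hk', by simpa using hkk⟩, rfl⟩)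
          rw [m_t9] at this
          exact this _ hxi _ hxi' _ (hc.mem 0 (by omega)) h1 hs hc.f

theorem flag_of {m : Mach} (hm : m.OK) {n : ℕ} {x : ℕ → ℕ} (hc : Chain R c n x)
    (hp : Psi R c (clsH m)) : m.flag n = true := by
  have hU : Psi R c (clsU m.nQ m.nK m.act) := fun cl hcl => hp cl (by
    unfold clsH
    exact List.mem_append_right _ (List.mem_append_left _ hcl))
  have h1 := (hist hm hc hp n le_rfl).1
  have h2 := hU (ng 1 [1] :: ((List.range m.nQ).filter m.act).map (fun q => ps (8 + q) [1]))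
    (by simp [clsU])
  have hn := hc.mem n le_rfl
  obtain ⟨y, hy, t, ht, h3⟩ := h2.use hn hn hn hn
  simp only [List.mem_cons, List.mem_map, List.mem_filter, List.mem_range] at ht
  rcases ht with rfl | ⟨q, ⟨hq, hact⟩, rfl⟩
  · rw [litH_ng] at h3
    exact absurd hc.l h3
  · rw [litH_ps] at h3
    change R (8 + q) [x n] at h3
    by_cases e : q = m.lab n
    · unfold Mach.flag
      rw [e] at hact
      exact hact
    · exfalso
      have h4 := hU [ng (8 + m.lab n) [1], ng (8 + q) [1]] (by
        simp only [clsU, List.mem_cons, List.mem_append, List.mem_flatMap, List.mem_map,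
          List.mem_filter, List.mem_range]
        exact Or.inr (Or.inr (Or.inr (Or.inr ⟨m.lab n, m.lab_lt hm n, q,
          ⟨hq, by simpa using e⟩, rfl⟩))))
      rw [m_qu] at h4
      exact h4 _ hn h1 h3

theorem sound {m : Mach} (hm : m.OK) (hf : c.Finite) (hne : c.Nonempty)
    (hp : Psi R c (clsH m)) : ∃ (n : ℕ) (x : ℕ → ℕ), Ax R c ∧ Chain R c n x ∧ m.flag n = true ∧
      n + 1 ≤ c.ncard ∧ c.ncard ≤ 2 * (n + 1) := by
  have hA : Ax R c := ax_of fun cl hcl => hp cl (List.mem_append_left _ hcl)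
  obtain ⟨n, x, hc⟩ := exists_chain hf hne hA
  exact ⟨n, x, hA, hc, flag_of hm hc hp, hc.card hA hf⟩

end Pool.Agent.V8H38.HF
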